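import Pool.Agent.helper77.IG.Eng

/-! # Contraction lemma for `SL_n(ℚ)` and an absolute value -/

namespace Pool.Agent.helper77.IG

open Matrix

variable {m : ℕ} (v : AbsoluteValue ℚ ℝ)

lemma mv (A B : SLn m) (w : Fin (m + 2) → ℚ) : (A * B).1 *ᵥ w = A.1 *ᵥ (B.1 *ᵥ w) :=
  (Matrix.mulVec_mulVec w A.1 B.1).symm

lemma mv_inv (A : SLn m) (w w' : Fin (m + 2) → ℚ) (h : A.1 *ᵥ w = w') : (A⁻¹).1 *ᵥ w' = w := by
  rw [← h, ← mv, inv_mul_cancel]
  exact Matrix.one_mulVec w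

lemma ne_zero_mat (A : SLn m) : A.1 ≠ 0 := by
  intro h
  have := A.2
  rw [h, Matrix.det_zero] at this
  exact zero_ne_one this

lemma large (hv : v.IsNontrivial) (B : ℝ) : ∃ c : ℚ, c ≠ 0 ∧ 1 ≤ v c ∧ B ≤ v c := by
  obtain ⟨x, hx⟩ := hv.exists_abv_gt_one
  obtain ⟨k, hk⟩ := pow_unbounded_of_one_lt B hx
  refine ⟨x ^ k, pow_ne_zero _ ?_, ?_, ?_⟩
  · rintro rfl
    rw [map_zero] at hx
    linarith
  · rw [map_pow]; exact one_le_pow₀ hx.le
  · rw [map_pow]; exact hk.le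

theorem contract (hv : v.IsNontrivial) (a φ : Fin (m + 2) → ℚ) (h0 : φ ⬝ᵥ a = 0)
    (ha : a (Fin.last (m + 1)) ≠ 0) (hφ : φ 0 ≠ 0) (C : ℝ) (t : ℚ) (ht : v t ≤ 1) (δ η : ℝ)
    (hδ : 0 < δ) (hη : 0 < η) :
    ∃ x : SLn m, ∀ M : SLn m, opn v M.1 ≤ C * v (φ ⬝ᵥ (M.1 *ᵥ a)) →
      ∀ w : Fin (m + 2) → ℚ, w ≠ 0 → δ * nrm v w ≤ v (w (Fin.last (m + 1)) - t * w 0) →
        ∃ s : ℚ, s ≠ 0 ∧ nrm v ((x * M * x⁻¹).1 *ᵥ w
          - (Pi.single 0 s + Pi.single (Fin.last (m + 1)) (t * s))) ≤ η * v s := by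
  set l := Fin.last (m + 1) with hl
  set z : SLn m := zs a φ with hz
  set A0 := opn v (z⁻¹).1 with hA0
  set A1 := opn v z.1 with hA1
  have hal : 0 < v (a l) := v.pos ha
  have hφ0 : 0 < v (φ 0) := v.pos hφ
  have hA0n : 0 ≤ A0 := opn_nonneg v _
  have hA1n : 0 ≤ A1 := opn_nonneg v _
  have hnφ : 0 ≤ nrm v φ := nrm_nonneg v φ
  set κ := δ / (2 * v (a l)) with hκ
  have hκp : 0 < κ := by positivity
  set κ' := nrm v φ * |C| * A0 with hκ'
  have hκ'p : 0 ≤ κ' := by positivity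
  obtain ⟨c, hc, hc1, hcB⟩ := large v hv ((κ' + 2 * A1 * |C| * A0 * v (φ 0) / η + 1) / κ)
  have hvc : 0 < v c := v.pos hc
  have hbig : κ' + 2 * A1 * |C| * A0 * v (φ 0) / η + 1 ≤ v c * κ := by
    rwa [div_le_iff₀ hκp] at hcB
  refine ⟨tv t * Dm c hc * z, fun M hM w hw hδw => ?_⟩
  set P := v (φ ⬝ᵥ (M.1 *ᵥ a)) with hP
  have hMp : 0 < opn v M.1 := opn_pos v (ne_zero_mat M)
  have hP0 : 0 ≤ P := v.nonneg _
  have hMC : opn v M.1 ≤ |C| * P := hM.trans (mul_le_mul_of_nonneg_right (le_abs_self C) hP0)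
  have hPpos : 0 < P := by
    rcases hP0.lt_or_eq with h | h
    · exact h
    · rw [← h, mul_zero] at hMC; linarith
  -- the vector u
  set u : Fin (m + 2) → ℚ := w + Pi.single l (-t * w 0) with hu
  have hyu : (tv t : SLn m).1 *ᵥ u = w := by
    rw [tv_mulVec, hu]
    have h0l : (0 : Fin (m + 2)) ≠ l := (Fin.last_pos).ne
    rw [Pi.add_apply, Pi.single_eq_of_ne h0l, add_zero, add_assoc, ← Pi.single_add]
    simp
  have hul : u l = w l - t * w 0 := by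
    rw [hu, Pi.add_apply, Pi.single_eq_same]; ring
  have hnu : nrm v u ≤ 2 * nrm v w := by
    refine (nrm_add_le v _ _).trans ?_
    rw [nrm_single, map_mul, map_neg_eq_map]
    have h1 := le_nrm v w 0
    have h2 : v t * v (w 0) ≤ 1 * v (w 0) := mul_le_mul_of_nonneg_right ht (v.nonneg _)
    linarith
  have hnw : 0 < nrm v w := nrm_pos v hw
  set U := nrm v u with hU
  have hulU : δ / 2 * U ≤ v (u l) := by
    rw [hul]
    have : δ / 2 * U ≤ δ / 2 * (2 * nrm v w) := mul_le_mul_of_nonneg_left hnu (by positivity)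
    linarith
  have hUpos : 0 < U := by
    have h1 : 0 < v (u l) := by
      rw [hul]
      exact lt_of_lt_of_le (by positivity) hδw
    exact lt_of_lt_of_le h1 (le_nrm v u l)
  -- D⁻¹ u
  set u' : Fin (m + 2) → ℚ := (Dm (m := m) c⁻¹ (inv_ne_zero hc)).1 *ᵥ u with hu'
  have hu'i : ∀ i, u' i = dg c⁻¹ i * u i := fun i => by
    rw [hu']
    exact Matrix.mulVec_diagonal _ _ _
  set r1 : Fin (m + 2) → ℚ := u' - Pi.single l (c * u l) with hr1
  have hr1n : nrm v r1 ≤ U := by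
    refine Finset.sum_le_sum fun i _ => ?_
    by_cases hi : i = l
    · have : r1 i = 0 := by
        rw [hi, hr1, Pi.sub_apply, hu'i, Pi.single_eq_same, hl, dg_last, inv_inv]
        ring
      rw [this, map_zero]
      exact v.nonneg _
    · have : r1 i = dg c⁻¹ i * u i := by
        rw [hr1, Pi.sub_apply, hu'i, Pi.single_eq_of_ne hi, sub_zero]
      rw [this, map_mul]
      have h1 : v (dg (m := m) c⁻¹ i) ≤ 1 := by
        by_cases hi0 : i = 0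
        · subst hi0
          rw [dg_zero, map_inv₀]
          exact inv_le_one_of_one_le₀ hc1
        · rw [dg_mid _ hi0 hi, map_one]
      calc v (dg (m := m) c⁻¹ i) * v (u i) ≤ 1 * v (u i) :=
            mul_le_mul_of_nonneg_right h1 (v.nonneg _)
        _ = v (u i) := one_mul _
  have hu'r : u' = Pi.single l (c * u l) + r1 := by rw [hr1]; abel
  have hu'n : nrm v u' ≤ 2 * v c * U := by
    rw [hu'r]
    refine (nrm_add_le v _ _).trans ?_
    rw [nrm_single, map_mul]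
    have h1 : v c * v (u l) ≤ v c * U := mul_le_mul_of_nonneg_left (le_nrm v u l) hvc.le
    have h2 : 1 * U ≤ v c * U := mul_le_mul_of_nonneg_right hc1 hUpos.le
    linarith
  -- z⁻¹
  have hzl : (z⁻¹).1 *ᵥ (Pi.single l (c * u l)) = (c * u l / a l) • a := by
    apply mv_inv
    rw [Matrix.mulVec_smul]
    have : z.1 *ᵥ a = Pi.single l (a l) := zm_col a φ hφ ha h0
    rw [this, ← Pi.single_smul, smul_eq_mul, div_mul_cancel₀ _ ha]
  set p : Fin (m + 2) → ℚ := (z⁻¹).1 *ᵥ u' with hp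
  have hpr : p = (c * u l / a l) • a + (z⁻¹).1 *ᵥ r1 := by
    rw [hp, hu'r, Matrix.mulVec_add, hzl]
  have hpn : nrm v p ≤ A0 * (2 * v c * U) :=
    (nrm_mulVec_le v _ _).trans (mul_le_mul_of_nonneg_left hu'n hA0n)
  set q : Fin (m + 2) → ℚ := z.1 *ᵥ (M.1 *ᵥ p) with hq
  have hqn : nrm v q ≤ A1 * (|C| * P * (A0 * (2 * v c * U))) := by
    refine (nrm_mulVec_le v _ _).trans (mul_le_mul_of_nonneg_left ?_ hA1n)
    refine (nrm_mulVec_le v _ _).trans (mul_le_mul hMC hpn (nrm_nonneg v _) (by positivity))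
  have hq0 : q 0 = (φ ⬝ᵥ (M.1 *ᵥ p)) / φ 0 := zm_row a φ hφ _
  have hφMp : P * U * (v c * κ - κ') ≤ v (φ ⬝ᵥ (M.1 *ᵥ p)) := by
    have h1 : φ ⬝ᵥ (M.1 *ᵥ p) = (c * u l / a l) * (φ ⬝ᵥ (M.1 *ᵥ a))
        + φ ⬝ᵥ (M.1 *ᵥ ((z⁻¹).1 *ᵥ r1)) := by
      rw [hpr, Matrix.mulVec_add, dotProduct_add, Matrix.mulVec_smul, dotProduct_smul, smul_eq_mul]
    have h2 : v (φ ⬝ᵥ (M.1 *ᵥ ((z⁻¹).1 *ᵥ r1))) ≤ κ' * P * U := by
      refine (dot_le v _ _).trans ?_
      have h3 : nrm v (M.1 *ᵥ ((z⁻¹).1 *ᵥ r1)) ≤ |C| * P * (A0 * U) := by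
        refine (nrm_mulVec_le v _ _).trans (mul_le_mul hMC ?_ (nrm_nonneg v _) (by positivity))
        exact (nrm_mulVec_le v _ _).trans (mul_le_mul_of_nonneg_left hr1n hA0n)
      calc nrm v φ * nrm v (M.1 *ᵥ ((z⁻¹).1 *ᵥ r1)) ≤ nrm v φ * (|C| * P * (A0 * U)) :=
            mul_le_mul_of_nonneg_left h3 hnφ
        _ = κ' * P * U := by rw [hκ']; ring
    have h4 : v ((c * u l / a l) * (φ ⬝ᵥ (M.1 *ᵥ a))) = v c * v (u l) / v (a l) * P := by
      rw [map_mul, map_div₀, map_mul]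
    have h5 : v ((c * u l / a l) * (φ ⬝ᵥ (M.1 *ᵥ a))) - v (φ ⬝ᵥ (M.1 *ᵥ ((z⁻¹).1 *ᵥ r1)))
        ≤ v (φ ⬝ᵥ (M.1 *ᵥ p)) := by
      rw [h1]
      have := v.add_le ((c * u l / a l) * (φ ⬝ᵥ (M.1 *ᵥ a)) + φ ⬝ᵥ (M.1 *ᵥ ((z⁻¹).1 *ᵥ r1)))
        (-(φ ⬝ᵥ (M.1 *ᵥ ((z⁻¹).1 *ᵥ r1))))
      rw [add_neg_cancel_right, map_neg_eq_map] at this
      linarith
    have h6 : v c * (δ / 2 * U) / v (a l) * P ≤ v c * v (u l) / v (a l) * P := by
      gcongr
    have h7 : v c * (δ / 2 * U) / v (a l) * P = P * U * (v c * κ) := by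
      rw [hκ]; field_simp
    rw [h4] at h5
    nlinarith
  have hpos : 0 < P * U * (v c * κ - κ') := by
    have : 0 < v c * κ - κ' := by
      have h1 : 0 ≤ 2 * A1 * |C| * A0 * v (φ 0) / η := by positivity
      linarith
    positivity
  set s : ℚ := c * q 0 with hs
  have hvs : v s = v c * v (φ ⬝ᵥ (M.1 *ᵥ p)) / v (φ 0) := by
    rw [hs, map_mul, hq0, map_div₀]; ring
  have hsne : s ≠ 0 := by
    rw [← v.pos_iff, hvs]
    have : 0 < v (φ ⬝ᵥ (M.1 *ᵥ p)) := lt_of_lt_of_le hpos hφMp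
    positivity
  refine ⟨s, hsne, ?_⟩
  -- the final vector
  set r4 : Fin (m + 2) → ℚ := (Dm (m := m) c hc).1 *ᵥ q - Pi.single 0 s with hr4
  have hfin : ((tv t * Dm c hc * z : SLn m) * M * (tv t * Dm c hc * z)⁻¹).1 *ᵥ w
      - (Pi.single 0 s + Pi.single l (t * s)) = r4 := by
    have h1 : ((tv t * Dm c hc * z : SLn m) * M * (tv t * Dm c hc * z)⁻¹).1 *ᵥ w
        = (tv t : SLn m).1 *ᵥ ((Dm (m := m) c hc).1 *ᵥ q) := by
      rw [_root_.mul_inv_rev, _root_.mul_inv_rev, Dm_inv, mv, mv, mv, mv, mv, mv,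
        mv_inv _ _ _ hyu]
    rw [h1, tv_mulVec]
    have h2 : ((Dm (m := m) c hc).1 *ᵥ q) 0 = s := by
      have : ((Dm (m := m) c hc).1 *ᵥ q) 0 = dg c 0 * q 0 := Matrix.mulVec_diagonal _ _ _
      rw [this, dg_zero]
    rw [h2, hr4]
    abel
  rw [hfin]
  have hr4n : nrm v r4 ≤ nrm v q := by
    refine Finset.sum_le_sum fun i _ => ?_
    have hi1 : ((Dm (m := m) c hc).1 *ᵥ q) i = dg c i * q i := Matrix.mulVec_diagonal _ _ _
    by_cases hi : i = 0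
    · subst hi
      have : r4 0 = 0 := by
        rw [hr4, Pi.sub_apply, hi1, Pi.single_eq_same, dg_zero, hs]
        ring
      rw [this, map_zero]
      exact v.nonneg _
    · have : r4 i = dg c i * q i := by
        rw [hr4, Pi.sub_apply, hi1, Pi.single_eq_of_ne hi, sub_zero]
      rw [this, map_mul]
      have h1 : v (dg (m := m) c i) ≤ 1 := by
        by_cases hil : i = l
        · rw [hil, hl, dg_last, map_inv₀]
          exact inv_le_one_of_one_le₀ hc1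
        · rw [dg_mid _ hi hil, map_one]
      calc v (dg (m := m) c i) * v (q i) ≤ 1 * v (q i) :=
            mul_le_mul_of_nonneg_right h1 (v.nonneg _)
        _ = v (q i) := one_mul _
  refine hr4n.trans (hqn.trans ?_)
  rw [hvs]
  have h1 : P * U * (2 * A1 * |C| * A0 * v (φ 0) / η) ≤ v (φ ⬝ᵥ (M.1 *ᵥ p)) := by
    refine le_trans (mul_le_mul_of_nonneg_left ?_ (by positivity)) hφMp
    linarith
  have h2 : A1 * (|C| * P * (A0 * (2 * v c * U)))
      = η * (v c * (P * U * (2 * A1 * |C| * A0 * v (φ 0) / η)) / v (φ 0)) := by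
    field_simp
  rw [h2]
  gcongr

end Pool.Agent.helper77.IG
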