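import Pool.Agent.helper77.IG.Evs

/-! # Directions of powers of matrices with positive eigenvalues -/

namespace Pool.Agent.helper77.IG

open Matrix Filter Topology Polynomial

variable {n : Type*} [Fintype n] [DecidableEq n] [Nonempty n]

/-- every linear combination of the entries and of constants is eventually signed -/
def Tame (M : ℕ → Matrix n n ℝ) : Prop :=
  ∀ (ℓ : Matrix n n ℝ →ₗ[ℝ] ℝ) (c : ℝ), EvS (fun k => ℓ (M k) + c)

/-- killed by a product of linear factors with positive roots -/
def PosKill (A : Matrix n n ℝ) : Prop :=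
  ∃ s : Multiset ℝ, (∀ μ ∈ s, 0 < μ) ∧ aeval A (s.map (fun μ => X - C μ)).prod = 0

omit [Nonempty n] in
lemma tame_pow {A : Matrix n n ℝ} (G : Matrix n n ℝ) (h : PosKill A) :
    Tame (fun k => A ^ k * G) := by
  obtain ⟨s, hs, hA⟩ := h
  intro ℓ c
  set T : Module.End ℝ (Matrix n n ℝ) := Algebra.lmul ℝ (Matrix n n ℝ) A with hT
  have h1 : (aeval T (s.map (fun μ => X - C μ)).prod) G = 0 := by
    rw [hT, aeval_algHom_apply, hA, map_zero, LinearMap.zero_apply]
  have h2 := evs_rec' T s hs G h1 ℓ c
  convert h2 using 3 with k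
  rw [hT, ← map_pow]
  rfl

/-- entries as linear forms -/
def ent (i j : n) : Matrix n n ℝ →ₗ[ℝ] ℝ := Matrix.entryLinearMap ℝ ℝ i j

omit [Nonempty n] [DecidableEq n] [Fintype n] in
lemma ent_apply (i j : n) (M : Matrix n n ℝ) : ent i j M = M i j := rfl

omit [Nonempty n] [DecidableEq n] [Fintype n] in
lemma tame_le {M : ℕ → Matrix n n ℝ} (h : Tame M) (ℓ ℓ' : Matrix n n ℝ →ₗ[ℝ] ℝ) :
    (∀ᶠ k in atTop, |ℓ (M k)| ≤ |ℓ' (M k)|) ∨ (∀ᶠ k in atTop, |ℓ' (M k)| ≤ |ℓ (M k)|) := by
  have h1 := h (ℓ' - ℓ) 0
  have h2 := h (ℓ' + ℓ) 0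
  simp only [LinearMap.sub_apply, LinearMap.add_apply, add_zero] at h1 h2
  rcases h1 with h1 | h1 <;> rcases h2 with h2 | h2
  · left
    filter_upwards [h1, h2] with k a b
    rw [abs_le]
    have := le_abs_self (ℓ' (M k))
    constructor <;> linarith
  · right
    filter_upwards [h1, h2] with k a b
    rw [abs_le]
    have := neg_abs_le (ℓ (M k))
    have := neg_le_abs (ℓ (M k))
    constructor <;> linarith
  · right
    filter_upwards [h1, h2] with k a b
    rw [abs_le]
    have := le_abs_self (ℓ (M k))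
    constructor <;> linarith
  · left
    filter_upwards [h1, h2] with k a b
    rw [abs_le]
    have := neg_le_abs (ℓ' (M k))
    constructor <;> linarith

omit [DecidableEq n] in
lemma exists_max {M : ℕ → Matrix n n ℝ} (h : Tame M) :
    ∃ p : n × n, ∀ q : n × n, ∀ᶠ k in atTop, |M k q.1 q.2| ≤ |M k p.1 p.2| := by
  classical
  have key : ∀ s : Finset (n × n), s.Nonempty → ∃ p ∈ s, ∀ q ∈ s,
      ∀ᶠ k in atTop, |M k q.1 q.2| ≤ |M k p.1 p.2| := by
    intro s hs
    induction hs using Finset.Nonempty.cons_induction with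
    | singleton a =>
      refine ⟨a, by simp, fun q hq => ?_⟩
      rw [Finset.mem_singleton] at hq
      subst hq
      exact Eventually.of_forall fun _ => le_rfl
    | cons a s ha hs ih =>
      obtain ⟨p, hp, hmax⟩ := ih
      rcases tame_le h (ent a.1 a.2) (ent p.1 p.2) with h1 | h1
      · refine ⟨p, by simp [hp], fun q hq => ?_⟩
        rcases Finset.mem_cons.1 hq with rfl | hq
        · exact h1
        · exact hmax q hq
      · refine ⟨a, by simp, fun q hq => ?_⟩
        rcases Finset.mem_cons.1 hq with rfl | hq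
        · exact Eventually.of_forall fun _ => le_rfl
        · filter_upwards [h1, hmax q hq] with k a b
          exact b.trans a
  obtain ⟨p, -, hp⟩ := key Finset.univ Finset.univ_nonempty
  exact ⟨p, fun q => hp q (Finset.mem_univ _)⟩

omit [DecidableEq n] in
/-- the directions of a tame nonvanishing sequence converge -/
lemma exists_dir {M : ℕ → Matrix n n ℝ} (h : Tame M) (hne : ∀ k, M k ≠ 0) :
    ∃ (c : ℕ → ℝ) (L : Matrix n n ℝ), (∀ᶠ k in atTop, c k ≠ 0) ∧ L ≠ 0 ∧
      (∀ᶠ k in atTop, ∀ i j, |M k i j| ≤ |c k|) ∧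
      (∀ i j, Tendsto (fun k => M k i j / c k) atTop (𝓝 (L i j))) ∧
      (∀ q : ℝ, EvS (fun k => c k - q)) := by
  obtain ⟨p, hp⟩ := exists_max h
  set c : ℕ → ℝ := fun k => M k p.1 p.2 with hc
  have hall : ∀ᶠ k in atTop, ∀ i j, |M k i j| ≤ |c k| := by
    have h1 : ∀ᶠ k in atTop, ∀ q : n × n, |M k q.1 q.2| ≤ |M k p.1 p.2| :=
      eventually_all.2 hp
    filter_upwards [h1] with k hk i j using hk (i, j)
  have hc0 : ∀ᶠ k in atTop, c k ≠ 0 := by
    filter_upwards [hall] with k hk h0
    apply hne k
    ext i j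
    have := hk i j
    rw [h0, abs_zero] at this
    exact abs_nonpos_iff.1 this
  have hcq : ∀ q : ℝ, EvS (fun k => c k - q) := by
    intro q
    have := h (ent p.1 p.2) (-q)
    simpa [ent_apply, sub_eq_add_neg] using this
  have hlim : ∀ i j, ∃ L, Tendsto (fun k => M k i j / c k) atTop (𝓝 L) := by
    intro i j
    refine tendsto_of_evs (K := 1) ?_ fun q => ?_
    · filter_upwards [hall, hc0] with k hk h0
      rw [abs_div, div_le_one (abs_pos.2 h0)]
      exact hk i j
    · have h1 := h (ent i j - q • ent p.1 p.2) 0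
      have h2 := hcq 0
      simp only [LinearMap.sub_apply, LinearMap.smul_apply, ent_apply, smul_eq_mul, add_zero,
        sub_zero] at h1 h2
      have e : ∀ k, c k ≠ 0 → M k i j / c k - q = (M k i j - q * c k) / c k := by
        intro k hk
        field_simp
      rcases h1 with h1 | h1 <;> rcases h2 with h2 | h2
      · left
        filter_upwards [h1, h2, hc0] with k a b c0
        rw [e k c0]; exact div_nonneg a b
      · right
        filter_upwards [h1, h2, hc0] with k a b c0
        rw [e k c0]; exact div_nonpos_of_nonneg_of_nonpos a b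
      · right
        filter_upwards [h1, h2, hc0] with k a b c0
        rw [e k c0]; exact div_nonpos_of_nonpos_of_nonneg a b
      · left
        filter_upwards [h1, h2, hc0] with k a b c0
        rw [e k c0]; exact div_nonneg_of_nonpos a b
  choose L hL using hlim
  refine ⟨c, L, hc0, ?_, hall, hL, hcq⟩
  intro h0
  have h1 := hL p.1 p.2
  have h2 : Tendsto (fun k => M k p.1 p.2 / c k) atTop (𝓝 1) := by
    refine tendsto_const_nhds.congr' ?_
    filter_upwards [hc0] with k hk
    exact (div_self hk).symm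
  have h3 := tendsto_nhds_unique h1 h2
  rw [show L p.1 p.2 = (L : Matrix n n ℝ) p.1 p.2 from rfl, h0] at h3
  simp at h3

omit [Nonempty n] [Fintype n] [DecidableEq n] in
lemma tendsto_mat {M : ℕ → Matrix n n ℝ} {B : Matrix n n ℝ}
    (h : ∀ i j, Tendsto (fun k => M k i j) atTop (𝓝 (B i j))) : Tendsto M atTop (𝓝 B) :=
  tendsto_pi_nhds.2 fun i => tendsto_pi_nhds.2 fun j => h i j

/-- the limit direction is singular unless the sequence is constant -/
lemma dir_det {A G : Matrix n n ℝ} (hdA : A.det = 1) (hdG : G.det = 1) (hA : A ≠ 1)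
    {c : ℕ → ℝ} {L : Matrix n n ℝ} (hc0 : ∀ᶠ k in atTop, c k ≠ 0)
    (hL : ∀ i j, Tendsto (fun k => (A ^ k * G) i j / c k) atTop (𝓝 (L i j)))
    (hcq : ∀ q : ℝ, EvS (fun k => c k - q)) : L.det = 0 := by
  have hdet : ∀ k, (A ^ k * G).det = 1 := fun k => by
    rw [Matrix.det_mul, Matrix.det_pow, hdA, hdG, one_pow, one_mul]
  by_cases hb : ∃ K, ∀ᶠ k in atTop, |c k| ≤ K
  · exfalso
    obtain ⟨K, hK⟩ := hb
    obtain ⟨c0, hc⟩ := tendsto_of_evs hK hcq
    have hlim : ∀ i j, Tendsto (fun k => (A ^ k * G) i j) atTop (𝓝 ((c0 • L) i j)) := by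
      intro i j
      have h1 := hc.mul (hL i j)
      rw [Matrix.smul_apply, smul_eq_mul]
      refine h1.congr' ?_
      filter_upwards [hc0] with k hk
      field_simp
    set B := c0 • L with hB
    have h1 : Tendsto (fun k => A ^ k * G) atTop (𝓝 B) := tendsto_mat hlim
    have h2 : Tendsto (fun k => A * (A ^ k * G)) atTop (𝓝 (A * B)) := h1.const_mul A
    have h3 : Tendsto (fun k => A ^ (k + 1) * G) atTop (𝓝 B) := h1.comp (tendsto_add_atTop_nat 1)
    have h4 : A * B = B := by
      refine tendsto_nhds_unique h2 ?_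
      convert h3 using 2 with k
      rw [pow_succ', Matrix.mul_assoc]
    have h5 : B.det = 1 := by
      have h6 : Tendsto (fun k => (A ^ k * G).det) atTop (𝓝 B.det) :=
        ((continuous_id.matrix_det).tendsto B).comp h1
      simp only [hdet] at h6
      exact (tendsto_nhds_unique h6 tendsto_const_nhds)
    apply hA
    have h7 : A * B * B⁻¹ = B * B⁻¹ := by rw [h4]
    rw [Matrix.mul_assoc, Matrix.mul_nonsing_inv _ (by rw [h5]; exact isUnit_one),
      Matrix.mul_one] at h7
    exact h7
  · push Not at hb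
    -- |c k| tends to infinity
    have hinf : Tendsto (fun k => |c k|) atTop atTop := by
      rw [tendsto_atTop]
      intro K
      rcases hcq K with h1 | h1
      · filter_upwards [h1] with k hk
        have := le_abs_self (c k)
        linarith
      · rcases hcq (-K) with h2 | h2
        · exfalso
          apply hb K
          filter_upwards [h1, h2] with k a b
          rw [not_lt, abs_le]
          constructor <;> linarith
        · filter_upwards [h2] with k hk
          have := neg_le_abs (c k)
          linarith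
    have h1 : Tendsto (fun k => (c k)⁻¹ • (A ^ k * G)) atTop (𝓝 L) := by
      refine tendsto_mat fun i j => ?_
      refine (hL i j).congr fun k => ?_
      rw [Matrix.smul_apply, smul_eq_mul]
      ring
    have h2 : Tendsto (fun k => ((c k)⁻¹ • (A ^ k * G)).det) atTop (𝓝 L.det) :=
      ((continuous_id.matrix_det).tendsto L).comp h1
    have h3 : Tendsto (fun k => ((c k)⁻¹ • (A ^ k * G)).det) atTop (𝓝 0) := by
      have h4 : Tendsto (fun k => (c k)⁻¹) atTop (𝓝 0) := by
        rw [tendsto_zero_iff_abs_tendsto_zero]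
        have h5 := tendsto_inv_atTop_zero.comp hinf
        refine h5.congr fun k => ?_
        simp [abs_inv]
      have h6 := h4.pow (Fintype.card n)
      rw [zero_pow Fintype.card_ne_zero] at h6
      refine h6.congr fun k => ?_
      rw [Matrix.det_smul, hdet, mul_one]
    exact tendsto_nhds_unique h2 h3

end Pool.Agent.helper77.IG
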