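import Pool.Agent.helper77.IG.PP

/-! # Contraction lemma for `SL_n(ℚ)` and an absolute value -/

namespace Pool.Agent.helper77.IG

open Matrix

variable {m : ℕ} (v : AbsoluteValue ℚ ℝ)

/-- the special linear group of rank `m + 2` over `ℚ` -/
abbrev SLn (m : ℕ) := SpecialLinearGroup (Fin (m + 2)) ℚ

/-- `ℓ¹` norm of a vector -/
noncomputable def nrm (w : Fin (m + 2) → ℚ) : ℝ := ∑ i, v (w i)

/-- `ℓ¹` norm of a matrix -/
noncomputable def opn (A : Matrix (Fin (m + 2)) (Fin (m + 2)) ℚ) : ℝ := ∑ i, ∑ j, v (A i j)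

lemma nrm_nonneg (w : Fin (m + 2) → ℚ) : 0 ≤ nrm v w := Finset.sum_nonneg fun _ _ => v.nonneg _

lemma le_nrm (w : Fin (m + 2) → ℚ) (i : Fin (m + 2)) : v (w i) ≤ nrm v w :=
  Finset.single_le_sum (f := fun i => v (w i)) (fun _ _ => v.nonneg _) (Finset.mem_univ i)

lemma nrm_pos {w : Fin (m + 2) → ℚ} (hw : w ≠ 0) : 0 < nrm v w := by
  obtain ⟨i, hi⟩ := Function.ne_iff.1 hw
  exact lt_of_lt_of_le (v.pos hi) (le_nrm v w i)

lemma nrm_add_le (w w' : Fin (m + 2) → ℚ) : nrm v (w + w') ≤ nrm v w + nrm v w' := by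
  unfold nrm
  rw [← Finset.sum_add_distrib]
  exact Finset.sum_le_sum fun i _ => v.add_le _ _

lemma nrm_smul (c : ℚ) (w : Fin (m + 2) → ℚ) : nrm v (c • w) = v c * nrm v w := by
  unfold nrm
  rw [Finset.mul_sum]
  exact Finset.sum_congr rfl fun i _ => by simp

lemma nrm_single (i : Fin (m + 2)) (c : ℚ) : nrm v (Pi.single i c) = v c := by
  unfold nrm
  rw [Finset.sum_eq_single i]
  · simp
  · intro j _ hj; simp [hj]
  · simp

lemma opn_nonneg (A : Matrix (Fin (m + 2)) (Fin (m + 2)) ℚ) : 0 ≤ opn v A :=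
  Finset.sum_nonneg fun _ _ => Finset.sum_nonneg fun _ _ => v.nonneg _

lemma entry_le_opn (A : Matrix (Fin (m + 2)) (Fin (m + 2)) ℚ) (i j : Fin (m + 2)) :
    v (A i j) ≤ opn v A := by
  unfold opn
  refine le_trans ?_ (Finset.single_le_sum (f := fun i => ∑ j, v (A i j))
    (fun _ _ => Finset.sum_nonneg fun _ _ => v.nonneg _) (Finset.mem_univ i))
  exact Finset.single_le_sum (f := fun j => v (A i j)) (fun _ _ => v.nonneg _) (Finset.mem_univ j)

lemma opn_pos {A : Matrix (Fin (m + 2)) (Fin (m + 2)) ℚ} (hA : A ≠ 0) : 0 < opn v A := by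
  have : ∃ i j, A i j ≠ 0 := by
    by_contra h
    push Not at h
    exact hA (by ext i j; exact h i j)
  obtain ⟨i, j, hij⟩ := this
  exact lt_of_lt_of_le (v.pos hij) (entry_le_opn v A i j)

lemma abv_sum_le {ι : Type*} (s : Finset ι) (f : ι → ℚ) : v (∑ i ∈ s, f i) ≤ ∑ i ∈ s, v (f i) := by
  classical
  induction s using Finset.induction_on with
  | empty => simp
  | insert i s hi ih =>
    rw [Finset.sum_insert hi, Finset.sum_insert hi]
    exact (v.add_le _ _).trans (by linarith)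

lemma nrm_mulVec_le (A : Matrix (Fin (m + 2)) (Fin (m + 2)) ℚ) (w : Fin (m + 2) → ℚ) :
    nrm v (A *ᵥ w) ≤ opn v A * nrm v w := by
  unfold opn
  rw [Finset.sum_mul]
  refine Finset.sum_le_sum fun i _ => ?_
  rw [Finset.sum_mul]
  change v (∑ j, A i j * w j) ≤ _
  refine (abv_sum_le v _ _).trans (Finset.sum_le_sum fun j _ => ?_)
  rw [map_mul]
  exact mul_le_mul_of_nonneg_left (le_nrm v w j) (v.nonneg _)

lemma dot_le (φ w : Fin (m + 2) → ℚ) : v (φ ⬝ᵥ w) ≤ nrm v φ * nrm v w := by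
  unfold dotProduct
  refine (abv_sum_le v _ _).trans ?_
  conv_rhs => rw [nrm, Finset.sum_mul]
  refine Finset.sum_le_sum fun j _ => ?_
  rw [map_mul]
  exact mul_le_mul_of_nonneg_left (le_nrm v w j) (v.nonneg _)

/-- the diagonal element -/
def dg (c : ℚ) (i : Fin (m + 2)) : ℚ := if i = 0 then c else if i = Fin.last (m + 1) then c⁻¹ else 1

lemma dg_zero (c : ℚ) : dg (m := m) c 0 = c := by simp [dg]

lemma dg_last (c : ℚ) : dg (m := m) c (Fin.last (m + 1)) = c⁻¹ := by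
  simp [dg, Fin.last_eq_zero_iff]

lemma dg_mid (c : ℚ) {i : Fin (m + 2)} (h0 : i ≠ 0) (h1 : i ≠ Fin.last (m + 1)) :
    dg (m := m) c i = 1 := by simp [dg, h0, h1]

lemma dg_inv (c : ℚ) (hc : c ≠ 0) (i : Fin (m + 2)) : dg (m := m) c⁻¹ i * dg (m := m) c i = 1 := by
  unfold dg
  split_ifs <;> simp [hc]

lemma prod_dg (c : ℚ) (hc : c ≠ 0) : ∏ i : Fin (m + 2), dg (m := m) c i = 1 := by
  rw [Fin.prod_univ_succ, Fin.prod_univ_castSucc]
  have h1 : ∀ i : Fin m, dg (m := m) c (Fin.succ (Fin.castSucc i)) = 1 := by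
    intro i
    apply dg_mid
    · exact Fin.succ_ne_zero _
    · intro h
      have := congrArg Fin.val h
      simp at this
      omega
  have h2 : Fin.succ (Fin.last m) = Fin.last (m + 1) := Fin.succ_last m
  rw [Finset.prod_congr rfl fun i _ => h1 i, h2, dg_zero, dg_last]
  simp [hc]

/-- the diagonal element of `SL` -/
def Dm (c : ℚ) (hc : c ≠ 0) : SLn m := ⟨Matrix.diagonal (dg c), by
  rw [Matrix.det_diagonal, prod_dg c hc]⟩

lemma Dm_coe (c : ℚ) (hc : c ≠ 0) :
    ((Dm (m := m) c hc : SLn m) : Matrix (Fin (m + 2)) (Fin (m + 2)) ℚ) = Matrix.diagonal (dg c) := rfl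

lemma Dm_inv (c : ℚ) (hc : c ≠ 0) : (Dm (m := m) c hc)⁻¹ = Dm c⁻¹ (inv_ne_zero hc) := by
  rw [inv_eq_iff_mul_eq_one]
  have h : (Matrix.diagonal (dg (m := m) c)) * (Matrix.diagonal (dg c⁻¹)) = 1 := by
    rw [Matrix.diagonal_mul_diagonal, ← Matrix.diagonal_one]
    congr 1
    ext i
    rw [mul_comm, dg_inv c hc]
  exact Subtype.ext h

/-- the conjugator sending `a` to the last basis vector -/
def zm (a φ : Fin (m + 2) → ℚ) : Matrix (Fin (m + 2)) (Fin (m + 2)) ℚ := fun i j =>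
  if i = j then 1 else if i = 0 then φ j / φ 0 else if j = Fin.last (m + 1) then - a i / a j else 0

lemma det_zm (a φ : Fin (m + 2) → ℚ) : (zm a φ).det = 1 := by
  rw [Matrix.det_of_isUpperTriangular]
  · simp [zm]
  · intro i j hij
    have hij' : j < i := hij
    have h1 : i ≠ j := ne_of_gt hij'
    have h2 : i ≠ 0 := by
      rintro rfl
      exact absurd hij' (Fin.not_lt_zero _)
    have h3 : j ≠ Fin.last (m + 1) := by
      rintro rfl
      exact absurd hij' (not_lt.2 (Fin.le_last _))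
    simp [zm, h1, h2, h3]

/-- the conjugator as element of `SL` -/
def zs (a φ : Fin (m + 2) → ℚ) : SLn m := ⟨zm a φ, det_zm a φ⟩

lemma zm_row (a φ : Fin (m + 2) → ℚ) (hφ : φ 0 ≠ 0) (w : Fin (m + 2) → ℚ) :
    (zm a φ *ᵥ w) 0 = (φ ⬝ᵥ w) / φ 0 := by
  unfold Matrix.mulVec dotProduct
  rw [Finset.sum_div]
  refine Finset.sum_congr rfl fun j _ => ?_
  unfold zm
  by_cases h : (0 : Fin (m + 2)) = j
  · subst h
    simp only [if_true]
    field_simp
  · simp only [h, if_false, if_true]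
    ring

lemma zm_col (a φ : Fin (m + 2) → ℚ) (hφ : φ 0 ≠ 0) (ha : a (Fin.last (m + 1)) ≠ 0)
    (h0 : φ ⬝ᵥ a = 0) : zm a φ *ᵥ a = Pi.single (Fin.last (m + 1)) (a (Fin.last (m + 1))) := by
  ext i
  by_cases hi : i = 0
  · subst hi
    rw [zm_row a φ hφ, h0, zero_div, Pi.single_eq_of_ne]
    exact (Fin.last_pos).ne
  · by_cases hl : i = Fin.last (m + 1)
    · subst hl
      rw [Pi.single_eq_same]
      unfold Matrix.mulVec dotProduct
      rw [Finset.sum_eq_single (Fin.last (m + 1))]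
      · simp [zm]
      · intro j _ hj
        simp [zm, hj, hj.symm, hi]
      · simp
    · rw [Pi.single_eq_of_ne hl]
      unfold Matrix.mulVec dotProduct
      rw [Finset.sum_eq_add i (Fin.last (m + 1)) hl]
      · simp only [zm, if_true, hl, hi, if_false]
        field_simp
        ring
      · intro j _ hj
        simp [zm, hj.1.symm, hj.2, hi]
      · simp
      · simp

/-- the lower transvection -/
def tv (t : ℚ) : SLn m := SpecialLinearGroup.transvection (Fin.last_pos).ne' t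

lemma tv_mulVec (t : ℚ) (w : Fin (m + 2) → ℚ) :
    ((tv t : SLn m) : Matrix (Fin (m + 2)) (Fin (m + 2)) ℚ) *ᵥ w
      = w + Pi.single (Fin.last (m + 1)) (t * w 0) := by
  change Matrix.transvection (Fin.last (m + 1)) 0 t *ᵥ w = _
  rw [Matrix.transvection, Matrix.add_mulVec, Matrix.one_mulVec, Matrix.single_mulVec_eq]
  congr 1
  ext i
  by_cases hi : i = Fin.last (m + 1)
  · subst hi; simp
  · simp [hi]

end Pool.Agent.helper77.IG
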