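import Pool.Agent.helper77.IG.Contr

/-! # A discrete subgroup meeting all transversal conjugacy classes -/

namespace Pool.Agent.helper77.IG

open Matrix
open scoped LinearAlgebra.Projectivization

variable {m : ℕ} (v : AbsoluteValue ℚ ℝ)

/-- transversal elements: there are a vector `a` and a linear form `φ` with `φ(a) = 0` such that
`|φ(g^k a)|` is comparable with the norm of `g^k` for all noncentral powers `g^k`. -/
def Tr (g : SLn m) : Prop :=
  ∃ a φ : Fin (m + 2) → ℚ, φ ⬝ᵥ a = 0 ∧ a (Fin.last (m + 1)) ≠ 0 ∧ φ 0 ≠ 0 ∧ ∃ C : ℝ,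
    ∀ k : ℤ, g ^ k ∉ Subgroup.center (SLn m) → opn v (g ^ k).1 ≤ C * v (φ ⬝ᵥ ((g ^ k).1 *ᵥ a))

/-- vectors close to the line of `e₀ + t eₗ` -/
def Near (t : ℚ) (η : ℝ) (w : Fin (m + 2) → ℚ) : Prop :=
  ∃ s : ℚ, s ≠ 0 ∧ nrm v (w - (Pi.single 0 s + Pi.single (Fin.last (m + 1)) (t * s))) ≤ η * v s

/-- vectors close to the line of `eₗ` -/
def NearL (η : ℝ) (w : Fin (m + 2) → ℚ) : Prop :=
  ∃ s : ℚ, s ≠ 0 ∧ nrm v (w - Pi.single (Fin.last (m + 1)) s) ≤ η * v s

lemma Near.smul {t : ℚ} {η : ℝ} {w : Fin (m + 2) → ℚ} (h : Near v t η w) {c : ℚ} (hc : c ≠ 0) :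
    Near v t η (c • w) := by
  obtain ⟨s, hs, h⟩ := h
  refine ⟨c * s, mul_ne_zero hc hs, ?_⟩
  have : c • w - (Pi.single 0 (c * s) + Pi.single (Fin.last (m + 1)) (t * (c * s)))
      = c • (w - (Pi.single 0 s + Pi.single (Fin.last (m + 1)) (t * s))) := by
    rw [smul_sub, smul_add, ← Pi.single_smul, ← Pi.single_smul, smul_eq_mul, smul_eq_mul]
    congr 3
    ring
  rw [this, nrm_smul, map_mul]
  calc v c * _ ≤ v c * (η * v s) := mul_le_mul_of_nonneg_left h (v.nonneg _)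
    _ = η * (v c * v s) := by ring

lemma abv_sub_le (x y : ℚ) : v (x - y) ≤ v x + v y := by
  have := v.add_le x (-y)
  rwa [map_neg_eq_map, ← sub_eq_add_neg] at this

lemma abv_ge (x y : ℚ) : v y - v (x - y) ≤ v x := by
  have := v.add_le x (y - x)
  rw [add_sub_cancel, v.map_sub] at this
  linarith

lemma near_bound {t : ℚ} {η : ℝ} (hη : η ≤ 1) (ht : v t ≤ 1) {w : Fin (m + 2) → ℚ} {s : ℚ}
    (h : nrm v (w - (Pi.single 0 s + Pi.single (Fin.last (m + 1)) (t * s))) ≤ η * v s) :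
    nrm v w ≤ 3 * v s := by
  have h1 : w = (w - (Pi.single 0 s + Pi.single (Fin.last (m + 1)) (t * s)))
      + (Pi.single 0 s + Pi.single (Fin.last (m + 1)) (t * s)) := by abel
  rw [h1]
  refine (nrm_add_le v _ _).trans ?_
  have h2 := nrm_add_le v (Pi.single (0 : Fin (m + 2)) s) (Pi.single (Fin.last (m + 1)) (t * s))
  rw [nrm_single, nrm_single, map_mul] at h2
  have h3 : v t * v s ≤ 1 * v s := mul_le_mul_of_nonneg_right ht (v.nonneg _)
  have h4 : η * v s ≤ 1 * v s := mul_le_mul_of_nonneg_right hη (v.nonneg _)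
  linarith

/-- linear form of a near vector -/
lemma near_form {t t' : ℚ} {η d : ℝ} (hη : η ≤ 1) (ht : v t ≤ 1) (ht' : v t' ≤ 1)
    (hd : d ≤ v (t - t')) (hηd : 4 * η ≤ v (t - t')) {w : Fin (m + 2) → ℚ} (h : Near v t η w) :
    d / 6 * nrm v w ≤ v (w (Fin.last (m + 1)) - t' * w 0) := by
  obtain ⟨s, hs, h⟩ := h
  have hb := near_bound v hη ht h
  set e := w - (Pi.single 0 s + Pi.single (Fin.last (m + 1)) (t * s)) with he
  have hl0 : (Fin.last (m + 1)) ≠ 0 := (Fin.last_pos).ne'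
  have h0 : w 0 = s + e 0 := by
    rw [he, Pi.sub_apply, Pi.add_apply, Pi.single_eq_same, Pi.single_eq_of_ne hl0.symm]; ring
  have h1 : w (Fin.last (m + 1)) = t * s + e (Fin.last (m + 1)) := by
    rw [he, Pi.sub_apply, Pi.add_apply, Pi.single_eq_same, Pi.single_eq_of_ne hl0]; ring
  have h2 : w (Fin.last (m + 1)) - t' * w 0
      = (t - t') * s + (e (Fin.last (m + 1)) - t' * e 0) := by
    rw [h0, h1]; ring
  have h3 : v (e (Fin.last (m + 1)) - t' * e 0) ≤ 2 * (η * v s) := by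
    refine (abv_sub_le v _ _).trans ?_
    rw [map_mul]
    have a1 := (le_nrm v e (Fin.last (m + 1))).trans h
    have a2 := (le_nrm v e 0).trans h
    have a3 : v t' * v (e 0) ≤ 1 * v (e 0) := mul_le_mul_of_nonneg_right ht' (v.nonneg _)
    linarith
  have h4 : v ((t - t') * s) - v (e (Fin.last (m + 1)) - t' * e 0)
      ≤ v (w (Fin.last (m + 1)) - t' * w 0) := by
    have := v.add_le (w (Fin.last (m + 1)) - t' * w 0) (-(e (Fin.last (m + 1)) - t' * e 0))
    rw [map_neg_eq_map] at this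
    have e1 : w (Fin.last (m + 1)) - t' * w 0 + -(e (Fin.last (m + 1)) - t' * e 0)
      = (t - t') * s := by rw [h2]; ring
    rw [e1] at this
    linarith
  rw [map_mul] at h4
  have hs0 : 0 < v s := v.pos hs
  have h5 : v (t - t') / 2 * v s ≤ v (w (Fin.last (m + 1)) - t' * w 0) := by
    have : 4 * η * v s ≤ v (t - t') * v s := mul_le_mul_of_nonneg_right hηd hs0.le
    nlinarith
  have h6 : d / 6 * nrm v w ≤ v (t - t') / 6 * nrm v w :=
    mul_le_mul_of_nonneg_right (by linarith) (nrm_nonneg v _)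
  have h7 : v (t - t') / 6 * nrm v w ≤ v (t - t') / 6 * (3 * v s) :=
    mul_le_mul_of_nonneg_left hb (by positivity)
  linarith

lemma nearL_form {t' : ℚ} {d : ℝ} (ht' : v t' ≤ 1) (hd : d ≤ 1) (hd0 : 0 ≤ d)
    {w : Fin (m + 2) → ℚ} (h : NearL v (1 / 4) w) :
    d / 6 * nrm v w ≤ v (w (Fin.last (m + 1)) - t' * w 0) := by
  obtain ⟨s, hs, h⟩ := h
  set e := w - Pi.single (Fin.last (m + 1)) s with he
  have hl0 : (Fin.last (m + 1)) ≠ 0 := (Fin.last_pos).ne'
  have h0 : w 0 = e 0 := by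
    rw [he, Pi.sub_apply, Pi.single_eq_of_ne hl0.symm]; ring
  have h1 : w (Fin.last (m + 1)) = s + e (Fin.last (m + 1)) := by
    rw [he, Pi.sub_apply, Pi.single_eq_same]; ring
  have h2 : w (Fin.last (m + 1)) - t' * w 0 = s + (e (Fin.last (m + 1)) - t' * e 0) := by
    rw [h0, h1]; ring
  have h3 : v (e (Fin.last (m + 1)) - t' * e 0) ≤ 2 * (1 / 4 * v s) := by
    refine (abv_sub_le v _ _).trans ?_
    rw [map_mul]
    have a1 := (le_nrm v e (Fin.last (m + 1))).trans h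
    have a2 := (le_nrm v e 0).trans h
    have a3 : v t' * v (e 0) ≤ 1 * v (e 0) := mul_le_mul_of_nonneg_right ht' (v.nonneg _)
    linarith
  have h4 : v s - v (e (Fin.last (m + 1)) - t' * e 0)
      ≤ v (w (Fin.last (m + 1)) - t' * w 0) := by
    have := v.add_le (w (Fin.last (m + 1)) - t' * w 0) (-(e (Fin.last (m + 1)) - t' * e 0))
    rw [map_neg_eq_map] at this
    have e1 : w (Fin.last (m + 1)) - t' * w 0 + -(e (Fin.last (m + 1)) - t' * e 0)
      = s := by rw [h2]; ring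
    rw [e1] at this
    linarith
  have hs0 : 0 < v s := v.pos hs
  have hb : nrm v w ≤ 2 * v s := by
    have h5 : w = e + Pi.single (Fin.last (m + 1)) s := by rw [he]; abel
    rw [h5]
    refine (nrm_add_le v _ _).trans ?_
    rw [nrm_single]
    linarith
  have h7 : d / 6 * nrm v w ≤ d / 6 * (2 * v s) :=
    mul_le_mul_of_nonneg_left hb (by positivity)
  have h8 : d * v s ≤ 1 * v s := mul_le_mul_of_nonneg_right hd hs0.le
  linarith

/-- the separation of the points `ϖ^i` -/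
lemma pow_sep {ϖ : ℚ} (h0 : 0 < v ϖ) (h1 : v ϖ < 1) {i j : ℕ} (hij : i ≠ j) :
    v ϖ ^ i * (1 - v ϖ) ≤ v (ϖ ^ i - ϖ ^ j) := by
  have key : ∀ {i j : ℕ}, i < j → v ϖ ^ i * (1 - v ϖ) ≤ v (ϖ ^ i - ϖ ^ j) := by
    intro i j h
    have h2 := abv_sub_le v (ϖ ^ i - ϖ ^ j) (-ϖ ^ j)
    have h3 : ϖ ^ i - ϖ ^ j - -ϖ ^ j = ϖ ^ i := by ring
    rw [h3, map_neg_eq_map, map_pow, map_pow] at h2
    have h4 : v ϖ ^ j ≤ v ϖ ^ (i + 1) := pow_le_pow_of_le_one h0.le h1.le h
    rw [pow_succ] at h4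
    nlinarith
  rcases lt_or_gt_of_ne hij with h | h
  · exact key h
  · have h2 := key h
    rw [v.map_sub]
    refine le_trans ?_ h2
    have : v ϖ ^ i ≤ v ϖ ^ j := pow_le_pow_of_le_one h0.le h1.le h.le
    exact mul_le_mul_of_nonneg_right this (by linarith)

lemma center_iff (g : SLn m) : g ∈ Subgroup.center (SLn m) ↔
    MulAction.toPermHom (SLn m) (ℙ ℚ (Fin (m + 2) → ℚ)) g = 1 := by
  rw [← Projectivization.SL_mulAction_ker, MonoidHom.mem_ker]

lemma smul_mk' (g : SLn m) (w : Fin (m + 2) → ℚ) (hw : w ≠ 0)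
    (h : g.1 *ᵥ w ≠ 0) : g • (Projectivization.mk ℚ w hw) = Projectivization.mk ℚ (g.1 *ᵥ w) h :=
  rfl

theorem engine (hv : v.IsNontrivial) :
    ∃ H : Subgroup (SLn m),
      (∃ ε : ℝ, 0 < ε ∧ ∀ h ∈ H, h ≠ 1 →
        ∃ i j, ε ≤ v (h.1 i j - (1 : Matrix (Fin (m + 2)) (Fin (m + 2)) ℚ) i j)) ∧
      ∀ g : SLn m, Tr v g → ∃ x : SLn m, x * g * x⁻¹ ∈ H := by
  classical
  have hcount : Countable (SLn m) := by
    have : Countable (Matrix (Fin (m + 2)) (Fin (m + 2)) ℚ) :=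
      inferInstanceAs (Countable (Fin (m + 2) → Fin (m + 2) → ℚ))
    exact Subtype.countable
  obtain ⟨enc, henc⟩ := exists_injective_nat (SLn m)
  obtain ⟨x0, hx0⟩ := hv.exists_abv_gt_one
  set ϖ : ℚ := x0⁻¹ with hϖ
  have hx0' : x0 ≠ 0 := by rintro rfl; rw [map_zero] at hx0; linarith
  have h0 : 0 < v ϖ := v.pos (inv_ne_zero hx0')
  have h1 : v ϖ < 1 := by rw [hϖ, map_inv₀]; exact inv_lt_one_of_one_lt₀ hx0
  let ι := {g : SLn m // Tr v g}
  let t : ι → ℚ := fun i => ϖ ^ enc i.1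
  let d : ι → ℝ := fun i => v ϖ ^ enc i.1 * (1 - v ϖ)
  have hdpos : ∀ i, 0 < d i := fun i => mul_pos (pow_pos h0 _) (by linarith)
  have hpow1 : ∀ i : ι, v ϖ ^ enc i.1 ≤ 1 := fun i => pow_le_one₀ h0.le h1.le
  have hd1 : ∀ i, d i ≤ 1 := fun i => by
    have := hpow1 i
    have h3 : 0 ≤ v ϖ ^ enc i.1 := by positivity
    change v ϖ ^ enc i.1 * (1 - v ϖ) ≤ 1
    nlinarith
  have ht1 : ∀ i, v (t i) ≤ 1 := fun i => by
    change v (ϖ ^ enc i.1) ≤ 1
    rw [map_pow]; exact hpow1 i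
  have hsep : ∀ i j : ι, i ≠ j → d i ≤ v (t i - t j) := fun i j hij =>
    pow_sep v h0 h1 (fun h => hij (Subtype.ext (henc h)))
  have hx : ∀ i : ι, ∃ x : SLn m, ∀ k : ℤ, (i.1 ^ k) ∉ Subgroup.center (SLn m) →
      ∀ w : Fin (m + 2) → ℚ, w ≠ 0 →
        d i / 6 * nrm v w ≤ v (w (Fin.last (m + 1)) - t i * w 0) →
        Near v (t i) (d i / 4) ((x * i.1 ^ k * x⁻¹).1 *ᵥ w) := by
    intro i
    obtain ⟨a, φ, h2, h3, h4, C, h5⟩ := i.2
    obtain ⟨x, hx⟩ := contract v hv a φ h2 h3 h4 C (t i) (ht1 i) (d i / 6) (d i / 4)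
      (by have := hdpos i; positivity) (by have := hdpos i; positivity)
    exact ⟨x, fun k hk w hw hw' => hx (i.1 ^ k) (h5 k hk) w hw hw'⟩
  choose x hx using hx
  let h : ι → SLn m := fun i => x i * i.1 * (x i)⁻¹
  let X : Option ι → Set (ℙ ℚ (Fin (m + 2) → ℚ)) := fun o => match o with
    | none => {p | NearL v (1 / 4) p.rep}
    | some i => {p | Near v (t i) (d i / 4) p.rep}
  have hpp : ∀ i : ι, ∀ j : Option ι, j ≠ some i → ∀ k : ℤ,
      MulAction.toPermHom (SLn m) (ℙ ℚ (Fin (m + 2) → ℚ)) (h i ^ k) ≠ 1 →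
        ∀ p ∈ X j, h i ^ k • p ∈ X (some i) := by
    intro i j hij k hk p hp
    have hc : i.1 ^ k ∉ Subgroup.center (SLn m) := by
      intro hc
      apply hk
      rw [← center_iff]
      change (x i * i.1 * (x i)⁻¹) ^ k ∈ _
      rw [conj_zpow]
      exact (inferInstance : (Subgroup.center (SLn m)).Normal).conj_mem _ hc _
    have hform : d i / 6 * nrm v p.rep ≤ v (p.rep (Fin.last (m + 1)) - t i * p.rep 0) := by
      cases j with
      | none => exact nearL_form v (ht1 i) (hd1 i) (hdpos i).le hp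
      | some j =>
        have hij' : j ≠ i := fun h => hij (by rw [h])
        refine near_form v (η := d j / 4) ?_ (ht1 j) (ht1 i) ?_ ?_ hp
        · have := hd1 j; linarith
        · rw [v.map_sub]; exact hsep i j hij'.symm
        · have := hsep j i hij'; linarith
    have hn := hx i k hc p.rep p.rep_nonzero hform
    have hne : (x i * i.1 ^ k * (x i)⁻¹).1 *ᵥ p.rep ≠ 0 := by
      intro h
      obtain ⟨s, hs, hn⟩ := hn
      rw [h] at hn
      have hs0 : 0 < v s := v.pos hs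
      have h2 := (le_nrm v _ 0).trans hn
      rw [Pi.sub_apply, Pi.add_apply, Pi.single_eq_same,
        Pi.single_eq_of_ne (Fin.last_pos).ne, Pi.zero_apply, add_zero, zero_sub,
        map_neg_eq_map] at h2
      have h3 := hd1 i
      nlinarith
    have heq : h i ^ k • p = Projectivization.mk ℚ ((x i * i.1 ^ k * (x i)⁻¹).1 *ᵥ p.rep) hne := by
      have : h i ^ k = x i * i.1 ^ k * (x i)⁻¹ := by
        change (x i * i.1 * (x i)⁻¹) ^ k = _
        rw [conj_zpow]
      rw [this]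
      conv_lhs => rw [← p.mk_rep]
      exact smul_mk' _ _ _ _
    rw [heq]
    obtain ⟨c, hc⟩ := Projectivization.exists_smul_eq_mk_rep ℚ _ hne
    change Near v (t i) (d i / 4) (Projectivization.mk ℚ _ hne).rep
    rw [← hc]
    exact hn.smul v c.ne_zero
  obtain ⟨H, hH1, hH2, hH3⟩ := pp h X hpp
  refine ⟨H, ⟨min (1 / 4) (v 2), lt_min (by norm_num) (v.pos two_ne_zero), fun g hg hg1 => ?_⟩,
    fun g hg => ⟨x ⟨g, hg⟩, hH2 ⟨g, hg⟩⟩⟩
  rcases hH3 g hg with h2 | ⟨i, h2⟩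
  · rw [← center_iff, Matrix.SpecialLinearGroup.mem_center_iff] at h2
    obtain ⟨r, hr1, hr2⟩ := h2
    refine ⟨0, 0, (min_le_right _ _).trans ?_⟩
    have hr3 : g.1 0 0 = r := by
      rw [← hr2]; simp
    have hr4 : r = 1 ∨ r = -1 := by
      have : |r| = 1 := by
        have h3 : |r| ^ (Fintype.card (Fin (m + 2))) = 1 := by rw [← abs_pow, hr1, abs_one]
        exact (pow_eq_one_iff_of_nonneg (abs_nonneg r) (by simp)).1 h3
      exact eq_or_eq_neg_of_abs_eq this
    rcases hr4 with hr4 | hr4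
    · exfalso
      apply hg1
      apply Subtype.ext
      rw [hr4] at hr2
      rw [← hr2]
      simp
    · rw [hr3, hr4, Matrix.one_apply_eq]
      have : (-1 - 1 : ℚ) = -2 := by norm_num
      rw [this, map_neg_eq_map]
  · set l := Fin.last (m + 1) with hl
    have hel : (Pi.single l 1 : Fin (m + 2) → ℚ) ≠ 0 := by
      intro h
      have := congrFun h l
      simp at this
    have hbase : Projectivization.mk ℚ (Pi.single l 1 : Fin (m + 2) → ℚ) hel ∈ X none := by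
      change NearL v (1 / 4) (Projectivization.mk ℚ (Pi.single l 1 : Fin (m + 2) → ℚ) hel).rep
      obtain ⟨c, hc⟩ := Projectivization.exists_smul_eq_mk_rep ℚ _ hel
      rw [← hc]
      refine ⟨c, c.ne_zero, ?_⟩
      have : c • (Pi.single l 1 : Fin (m + 2) → ℚ) - Pi.single (Fin.last (m + 1)) (c : ℚ) = 0 := by
        rw [Units.smul_def, ← Pi.single_smul, smul_eq_mul, mul_one, sub_self]
      rw [this]
      have : nrm v (0 : Fin (m + 2) → ℚ) = 0 := by simp [nrm]
      rw [this]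
      positivity
    have h3 := h2 _ hbase
    have hne : g.1 *ᵥ (Pi.single l 1 : Fin (m + 2) → ℚ) ≠ 0 := by
      intro h
      apply hel
      have := mv_inv g _ _ h
      rw [← this, Matrix.mulVec_zero]
    rw [smul_mk' g _ hel hne] at h3
    obtain ⟨c, hc⟩ := Projectivization.exists_smul_eq_mk_rep ℚ _ hne
    change Near v (t i) (d i / 4) (Projectivization.mk ℚ _ hne).rep at h3
    rw [← hc] at h3
    obtain ⟨s, hs, h4⟩ := h3
    have hs0 : 0 < v s := v.pos hs
    have hc0 : 0 < v (c : ℚ) := v.pos c.ne_zero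
    have hcol : ∀ a, (g.1 *ᵥ (Pi.single l 1 : Fin (m + 2) → ℚ)) a = g.1 a l := by
      intro a
      simp
    have h5 := (le_nrm v _ 0).trans h4
    have h6 := (le_nrm v _ l).trans h4
    rw [Pi.sub_apply, Pi.add_apply, Pi.single_eq_same, Pi.single_eq_of_ne (Fin.last_pos).ne,
      add_zero, Units.smul_def, Pi.smul_apply, hcol, smul_eq_mul] at h5
    rw [Pi.sub_apply, Pi.add_apply, Pi.single_eq_same, Pi.single_eq_of_ne (Fin.last_pos).ne',
      zero_add, Units.smul_def, Pi.smul_apply, hcol, smul_eq_mul] at h6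
    have h7 := abv_ge v ((c : ℚ) * g.1 0 l) s
    have h8 : v ((c : ℚ) * g.1 l l) ≤ v ((c : ℚ) * g.1 l l - t i * s) + v (t i * s) := by
      have := v.add_le ((c : ℚ) * g.1 l l - t i * s) (t i * s)
      rwa [sub_add_cancel] at this
    rw [map_mul] at h7
    rw [map_mul, map_mul v (t i)] at h8
    have h9 : v (t i) * v s ≤ 1 * v s := mul_le_mul_of_nonneg_right (ht1 i) hs0.le
    have h10 : d i / 4 * v s ≤ 1 / 4 * v s :=
      mul_le_mul_of_nonneg_right (by have := hd1 i; linarith) hs0.le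
    have h11 : 3 * v (g.1 l l) ≤ 5 * v (g.1 0 l) := by
      have h12 : v (c : ℚ) * v (g.1 l l) ≤ 5 / 4 * v s := by linarith
      have h13 : 3 / 4 * v s ≤ v (c : ℚ) * v (g.1 0 l) := by linarith
      have h14 : v (c : ℚ) * (3 * v (g.1 l l)) ≤ v (c : ℚ) * (5 * v (g.1 0 l)) := by linarith
      exact le_of_mul_le_mul_left h14 hc0
    by_cases h15 : 1 / 4 ≤ v (g.1 0 l)
    · refine ⟨0, l, (min_le_left _ _).trans ?_⟩
      rw [Matrix.one_apply_ne (Fin.last_pos).ne, sub_zero]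
      exact h15
    · refine ⟨l, l, (min_le_left _ _).trans ?_⟩
      rw [Matrix.one_apply_eq]
      have h16 := abv_ge v (g.1 l l) 1
      rw [map_one] at h16
      have h17 : v (g.1 l l) ≤ 5 / 12 := by linarith
      linarith

end Pool.Agent.helper77.IG
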