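import Mathlib

/-! # Eventually signed sequences and directions of powers of matrices with positive eigenvalues -/

namespace Pool.Agent.helper77.IG

open Matrix Filter Topology Polynomial

/-- eventually of constant sign -/
def EvS (x : ℕ → ℝ) : Prop := (∀ᶠ k in atTop, 0 ≤ x k) ∨ (∀ᶠ k in atTop, x k ≤ 0)

lemma EvS.neg {x : ℕ → ℝ} (h : EvS x) : EvS (fun k => - x k) := by
  rcases h with h | h
  · right; filter_upwards [h] with k hk; linarith
  · left; filter_upwards [h] with k hk; linarith

lemma evs_step_aux {x : ℕ → ℝ} {μ : ℝ} (hμ : 0 < μ)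
    (h : ∀ᶠ k in atTop, 0 ≤ x (k + 1) - μ * x k) : EvS x := by
  obtain ⟨M, hM⟩ := eventually_atTop.1 h
  by_cases hex : ∃ k ≥ M, 0 ≤ x k
  · obtain ⟨k0, hk0, hx⟩ := hex
    left
    refine eventually_atTop.2 ⟨k0, fun k hk => ?_⟩
    induction k, hk using Nat.le_induction with
    | base => exact hx
    | succ k hk ih =>
      have := hM k (hk0.trans hk)
      have h2 : 0 ≤ μ * x k := mul_nonneg hμ.le ih
      linarith
  · push Not at hex
    right
    exact eventually_atTop.2 ⟨M, fun k hk => (hex k hk).le⟩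

lemma evs_step {x : ℕ → ℝ} {μ : ℝ} (hμ : 0 < μ) (h : EvS (fun k => x (k + 1) - μ * x k)) :
    EvS x := by
  rcases h with h | h
  · exact evs_step_aux hμ h
  · have : EvS (fun k => - x k) := by
      refine evs_step_aux hμ ?_
      filter_upwards [h] with k hk
      linarith
    simpa using this.neg

lemma evs_zero : EvS (fun _ => 0) := Or.inl (Eventually.of_forall fun _ => le_rfl)

/-- linear recurrences with positive roots are eventually signed -/
lemma evs_rec {V : Type*} [AddCommGroup V] [Module ℝ V] (T : Module.End ℝ V) (s : Multiset ℝ)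
    (hs : ∀ μ ∈ s, 0 < μ) : ∀ (w : V), (aeval T (s.map (fun μ => X - C μ)).prod) w = 0 →
      ∀ ℓ : V →ₗ[ℝ] ℝ, EvS (fun k => ℓ ((T ^ k) w)) := by
  induction s using Multiset.induction_on with
  | empty =>
    intro w hw ℓ
    have : w = 0 := by simpa using hw
    rw [this]
    simpa using evs_zero
  | cons μ s ih =>
    intro w hw ℓ
    rw [Multiset.map_cons, Multiset.prod_cons, mul_comm, map_mul, Module.End.mul_apply] at hw
    have h1 := ih (fun ν hν => hs ν (by simp [hν])) _ hw ℓ
    refine evs_step (hs μ (by simp)) ?_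
    convert h1 using 2 with k
    rw [aeval_sub, aeval_X, aeval_C, LinearMap.sub_apply, map_sub, map_sub, pow_succ,
      Module.End.mul_apply]
    simp [Module.algebraMap_end_apply]

/-- as `evs_rec`, with a constant added -/
lemma evs_rec' {V : Type*} [AddCommGroup V] [Module ℝ V] (T : Module.End ℝ V) (s : Multiset ℝ)
    (hs : ∀ μ ∈ s, 0 < μ) (w : V) (hw : (aeval T (s.map (fun μ => X - C μ)).prod) w = 0)
    (ℓ : V →ₗ[ℝ] ℝ) (c : ℝ) : EvS (fun k => ℓ ((T ^ k) w) + c) := by
  refine evs_step one_pos ?_
  have h1 : (aeval T (s.map (fun μ => X - C μ)).prod) (T w - w) = 0 := by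
    have h2 : (aeval T (s.map (fun μ => X - C μ)).prod) (T w) = 0 := by
      have h3 : (aeval T (s.map (fun μ => X - C μ)).prod) (T w)
          = (aeval T ((s.map (fun μ => X - C μ)).prod * X)) w := by
        rw [map_mul, aeval_X, Module.End.mul_apply]
      rw [h3, mul_comm, map_mul, aeval_X, Module.End.mul_apply, hw, map_zero]
    rw [map_sub, h2, hw, sub_zero]
  have h4 := evs_rec T s hs _ h1 ℓ
  convert h4 using 2 with k
  rw [map_sub, map_sub, pow_succ, Module.End.mul_apply]
  ring

/-- bounded sequences crossing every level finitely often converge -/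
lemma tendsto_of_evs {f : ℕ → ℝ} {K : ℝ} (hb : ∀ᶠ k in atTop, |f k| ≤ K)
    (h : ∀ q : ℝ, EvS (fun k => f k - q)) : ∃ L, Tendsto f atTop (𝓝 L) := by
  refine tendsto_of_no_upcrossings (s := Set.univ) dense_univ ?_ ?_ ?_
  · rintro a - b - hab ⟨h1, h2⟩
    rcases h ((a + b) / 2) with h3 | h3
    · exact h1 (by filter_upwards [h3] with k hk hk'; linarith)
    · exact h2 (by filter_upwards [h3] with k hk hk'; linarith)
  · exact ⟨K, by
      rw [eventually_map]
      filter_upwards [hb] with k hk using (abs_le.1 hk).2⟩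
  · exact ⟨-K, by
      rw [eventually_map]
      filter_upwards [hb] with k hk using (abs_le.1 hk).1⟩

end Pool.Agent.helper77.IG
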