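import Pool.Agent.helper77.IG.Main

/-! # Elements whose growth is realised by eigenvalues in the completion are transversal -/

namespace Pool.Agent.helper77.IG

open Matrix Filter Topology Polynomial

variable {m : ℕ}

/-- transversal elements, without coordinate conditions -/
def Tr0 (v : AbsoluteValue ℚ ℝ) (g : SLn m) : Prop :=
  ∃ a φ : Fin (m + 2) → ℚ, φ ⬝ᵥ a = 0 ∧ a ≠ 0 ∧ φ ≠ 0 ∧ ∃ C : ℝ,
    ∀ k : ℤ, g ^ k ∉ Subgroup.center (SLn m) → opn v (g ^ k).1 ≤ C * v (φ ⬝ᵥ ((g ^ k).1 *ᵥ a))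

lemma opn_mul_le (v : AbsoluteValue ℚ ℝ) (A B : Matrix (Fin (m + 2)) (Fin (m + 2)) ℚ) :
    opn v (A * B) ≤ opn v A * opn v B := by
  unfold opn
  rw [Finset.sum_mul]
  refine Finset.sum_le_sum fun i _ => ?_
  calc ∑ j, v ((A * B) i j) ≤ ∑ j, ∑ k, v (A i k) * v (B k j) := by
        refine Finset.sum_le_sum fun j _ => ?_
        rw [Matrix.mul_apply]
        refine (abv_sum_le v _ _).trans (le_of_eq ?_)
        exact Finset.sum_congr rfl fun k _ => map_mul v _ _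
    _ = ∑ k, v (A i k) * ∑ j, v (B k j) := by
        rw [Finset.sum_comm]
        exact Finset.sum_congr rfl fun k _ => by rw [Finset.mul_sum]
    _ ≤ ∑ k, v (A i k) * ∑ i, ∑ j, v (B i j) := by
        refine Finset.sum_le_sum fun k _ => mul_le_mul_of_nonneg_left ?_ (v.nonneg _)
        exact Finset.single_le_sum (f := fun i => ∑ j, v (B i j))
          (fun _ _ => Finset.sum_nonneg fun _ _ => v.nonneg _) (Finset.mem_univ k)
    _ = _ := by rw [Finset.sum_mul]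

/-- the rational conjugator making the outer coordinates nonzero -/
lemma fix_coords (a φ : Fin (m + 2) → ℚ) (h0 : φ ⬝ᵥ a = 0) (ha : a ≠ 0) (hφ : φ ≠ 0) :
    ∃ (y : SLn m) (φ' : Fin (m + 2) → ℚ), (y.1 *ᵥ a) (Fin.last (m + 1)) ≠ 0 ∧ φ' 0 ≠ 0 ∧
      ∀ w, φ' ⬝ᵥ (y.1 *ᵥ w) = φ ⬝ᵥ w := by
  classical
  set l := Fin.last (m + 1) with hl
  have htv : ∀ {i j : Fin (m + 2)} (hij : i ≠ j) (w : Fin (m + 2) → ℚ),
      (SpecialLinearGroup.transvection hij (1 : ℚ)).1 *ᵥ w = w + Pi.single i (w j) := by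
    intro i j hij w
    change Matrix.transvection i j 1 *ᵥ w = _
    rw [Matrix.transvection, Matrix.add_mulVec, Matrix.one_mulVec, Matrix.single_mulVec_eq]
    congr 1
    ext k
    by_cases hk : k = i
    · subst hk; simp
    · simp [hk]
  -- first step
  have step1 : ∃ (y : SLn m) (φ' : Fin (m + 2) → ℚ), (y.1 *ᵥ a) l ≠ 0 ∧ φ' ≠ 0 ∧
      ∀ w, φ' ⬝ᵥ (y.1 *ᵥ w) = φ ⬝ᵥ w := by
    by_cases hal : a l = 0
    · obtain ⟨i, hi⟩ := Function.ne_iff.1 ha
      rw [Pi.zero_apply] at hi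
      have hil : l ≠ i := by rintro rfl; exact hi hal
      refine ⟨SpecialLinearGroup.transvection hil 1, φ - Pi.single i (φ l), ?_, ?_, fun w => ?_⟩
      · rw [htv, Pi.add_apply, hal, Pi.single_eq_same, zero_add]; exact hi
      · intro h
        have h1 := congrFun h l
        rw [Pi.sub_apply, Pi.single_eq_of_ne hil, sub_zero, Pi.zero_apply] at h1
        rw [h1, Pi.single_zero, sub_zero] at h
        exact hφ h
      · rw [htv, dotProduct_add, sub_dotProduct, sub_dotProduct, dotProduct_single,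
          dotProduct_single, single_dotProduct, Pi.single_eq_of_ne hil]
        ring
    · exact ⟨1, φ, by
        change ((1 : Matrix _ _ ℚ) *ᵥ a) l ≠ 0
        rw [Matrix.one_mulVec]; exact hal, hφ, fun w => by
        change φ ⬝ᵥ ((1 : Matrix _ _ ℚ) *ᵥ w) = _
        rw [Matrix.one_mulVec]⟩
  obtain ⟨y, φ', hy, hφ', hw⟩ := step1
  by_cases h00 : φ' 0 = 0
  · -- another nonzero coordinate `≠ l`
    have hex : ∃ j, j ≠ l ∧ φ' j ≠ 0 := by
      by_contra hc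
      push Not at hc
      have h1 := hw a
      rw [h0] at h1
      have h2 : φ' ⬝ᵥ (y.1 *ᵥ a) = φ' l * (y.1 *ᵥ a) l := by
        change ∑ i, φ' i * (y.1 *ᵥ a) i = _
        refine Finset.sum_eq_single l (fun j _ hj => by rw [hc j hj, zero_mul]) (by simp)
      rw [h2] at h1
      have h3 : φ' l = 0 := (mul_eq_zero.1 h1).resolve_right hy
      apply hφ'
      ext j
      by_cases hj : j = l
      · rw [hj]; exact h3
      · exact hc j hj
    obtain ⟨j, hjl, hj⟩ := hex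
    have hj0 : j ≠ 0 := by rintro rfl; exact hj h00
    refine ⟨SpecialLinearGroup.transvection hj0 1 * y, φ' - Pi.single 0 (φ' j), ?_, ?_,
      fun w => ?_⟩
    · rw [mv, htv, Pi.add_apply, Pi.single_eq_of_ne hjl.symm, add_zero]; exact hy
    · rw [Pi.sub_apply, h00, Pi.single_eq_same, zero_sub]; exact neg_ne_zero.2 hj
    · rw [mv, htv, dotProduct_add, sub_dotProduct, sub_dotProduct, dotProduct_single,
        dotProduct_single, single_dotProduct, Pi.single_eq_of_ne hj0, ← hw w]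
      ring
  · exact ⟨y, φ', hy, h00, hw⟩

/-- coordinate conditions can be reached by conjugation -/
lemma tr_of_tr0 (v : AbsoluteValue ℚ ℝ) (g : SLn m) (h : Tr0 v g) :
    ∃ y : SLn m, Tr v (y * g * y⁻¹) := by
  obtain ⟨a, φ, h0, ha, hφ, C, hC⟩ := h
  obtain ⟨y, φ', hy, hφ', hw⟩ := fix_coords a φ h0 ha hφ
  refine ⟨y, y.1 *ᵥ a, φ', by rw [hw]; exact h0, hy, hφ',
    opn v y.1 * opn v (y⁻¹).1 * C, fun k hk => ?_⟩
  rw [conj_zpow] at hk ⊢
  have hk' : g ^ k ∉ Subgroup.center (SLn m) := fun h =>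
    hk ((inferInstance : (Subgroup.center (SLn m)).Normal).conj_mem _ h _)
  have h1 := hC k hk'
  have h2 : (y * g ^ k * y⁻¹).1 *ᵥ (y.1 *ᵥ a) = y.1 *ᵥ ((g ^ k).1 *ᵥ a) := by
    rw [mv, mv, mv_inv y a _ rfl]
  rw [h2, hw]
  have h3 : opn v (y * g ^ k * y⁻¹).1 ≤ opn v y.1 * opn v (g ^ k).1 * opn v (y⁻¹).1 := by
    change opn v (y.1 * (g ^ k).1 * (y⁻¹).1) ≤ _
    refine (opn_mul_le v _ _).trans ?_
    exact mul_le_mul_of_nonneg_right (opn_mul_le v _ _) (opn_nonneg v _)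
  refine h3.trans ?_
  calc opn v y.1 * opn v (g ^ k).1 * opn v (y⁻¹).1
      = opn v y.1 * opn v (y⁻¹).1 * opn v (g ^ k).1 := by ring
    _ ≤ opn v y.1 * opn v (y⁻¹).1 * (C * v (φ ⬝ᵥ ((g ^ k).1 *ᵥ a))) :=
        mul_le_mul_of_nonneg_left h1 (mul_nonneg (opn_nonneg v _) (opn_nonneg v _))
    _ = _ := by ring


section field

variable {K : Type*} [NormedField K] [CharZero K]

/-- `ℓ¹` norm -/
noncomputable def kn (M : Matrix (Fin (m + 2)) (Fin (m + 2)) K) : ℝ := ∑ i, ∑ j, ‖M i j‖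

omit [CharZero K] in
lemma kn_nonneg (M : Matrix (Fin (m + 2)) (Fin (m + 2)) K) : 0 ≤ kn M :=
  Finset.sum_nonneg fun _ _ => Finset.sum_nonneg fun _ _ => norm_nonneg _

omit [CharZero K] in
lemma exists_eigvec (A : Matrix (Fin (m + 2)) (Fin (m + 2)) K) (μ : K)
    (hμ : A.charpoly.IsRoot μ) : ∃ e : Fin (m + 2) → K, e ≠ 0 ∧ A *ᵥ e = μ • e := by
  rw [IsRoot.def, Matrix.eval_charpoly] at hμ
  obtain ⟨e, he, h⟩ := Matrix.exists_mulVec_eq_zero_iff.2 hμ
  refine ⟨e, he, ?_⟩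
  rw [Matrix.sub_mulVec, sub_eq_zero] at h
  rw [← h]
  simp

omit [CharZero K] in
lemma eig_pow (A : Matrix (Fin (m + 2)) (Fin (m + 2)) K) (μ : K) (e : Fin (m + 2) → K)
    (h : A *ᵥ e = μ • e) (k : ℕ) : (A ^ k) *ᵥ e = μ ^ k • e := by
  induction k with
  | zero => simp
  | succ k ih => rw [pow_succ, ← Matrix.mulVec_mulVec, h, Matrix.mulVec_smul, ih, smul_smul,
      pow_succ']

omit [CharZero K] in
lemma exists_seq_K (hd : ∀ (x : K) (ε : ℝ), 0 < ε → ∃ r : ℚ, ‖x - (r : K)‖ < ε) (x : K) :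
    ∃ u : ℕ → ℚ, Tendsto (fun k => ((u k : ℚ) : K)) atTop (𝓝 x) := by
  choose u hu using fun k : ℕ => hd x (1 / ((k : ℝ) + 1)) (by positivity)
  refine ⟨u, ?_⟩
  rw [tendsto_iff_norm_sub_tendsto_zero]
  refine squeeze_zero (fun k => norm_nonneg _) (fun k => ?_) tendsto_one_div_add_atTop_nhds_zero_nat
  rw [norm_sub_rev]
  exact (hu k).le

/-- rational flags are dense in flags over `K` -/
lemma rat_flag_K (hd : ∀ (x : K) (ε : ℝ), 0 < ε → ∃ r : ℚ, ‖x - (r : K)‖ < ε)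
    (a φ : Fin (m + 2) → K) (h0 : φ ⬝ᵥ a = 0) (ha : a ≠ 0) (hφ : φ ≠ 0)
    (ε : ℝ) (hε : 0 < ε) :
    ∃ a' φ' : Fin (m + 2) → ℚ, φ' ⬝ᵥ a' = 0 ∧ a' ≠ 0 ∧ φ' ≠ 0 ∧
      ∀ i j, ‖((φ' i : ℚ) : K) * ((a' j : ℚ) : K) - φ i * a j‖ ≤ ε := by
  classical
  choose u hu using fun i => exists_seq_K hd (a i)
  choose w hw using fun i => exists_seq_K hd (φ i)
  obtain ⟨l, hl⟩ := Function.ne_iff.1 ha
  rw [Pi.zero_apply] at hl
  obtain ⟨l', hl'⟩ := Function.ne_iff.1 hφ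
  rw [Pi.zero_apply] at hl'
  let ψ : ℕ → Fin (m + 2) → ℚ := fun k i =>
    if i = l then -(∑ i ∈ Finset.univ.erase l, w i k * u i k) / u l k else w i k
  have hsum : ∑ i ∈ Finset.univ.erase l, φ i * a i = - (φ l * a l) := by
    have h1 : φ ⬝ᵥ a = ∑ i, φ i * a i := rfl
    rw [h1, ← Finset.add_sum_erase _ _ (Finset.mem_univ l)] at h0
    exact eq_neg_of_add_eq_zero_right h0
  have hψ : ∀ i, Tendsto (fun k => ((ψ k i : ℚ) : K)) atTop (𝓝 (φ i)) := by
    intro i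
    by_cases hi : i = l
    · rw [hi]
      have h1 : Tendsto (fun k => -(∑ i ∈ Finset.univ.erase l, ((w i k : ℚ) : K) * u i k)
          / u l k) atTop (𝓝 (-(∑ i ∈ Finset.univ.erase l, φ i * a i) / a l)) := by
        refine Tendsto.div (Tendsto.neg ?_) (hu l) hl
        exact tendsto_finsetSum _ fun i _ => (hw i).mul (hu i)
      rw [hsum, neg_neg, mul_div_assoc, div_self hl, mul_one] at h1
      refine h1.congr fun k => ?_
      simp [ψ]
    · refine (hw i).congr fun k => ?_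
      simp [ψ, hi]
  have hev1 : ∀ᶠ k in atTop, ((u l k : ℚ) : K) ≠ 0 := (hu l).eventually_ne hl
  have hev2 : ∀ᶠ k in atTop, ((ψ k l' : ℚ) : K) ≠ 0 := (hψ l').eventually_ne hl'
  have hev3 : ∀ᶠ k in atTop, ∀ i j,
      ‖((ψ k i : ℚ) : K) * ((u j k : ℚ) : K) - φ i * a j‖ ≤ ε := by
    rw [eventually_all]
    intro i
    rw [eventually_all]
    intro j
    have h1 := ((hψ i).mul (hu j))
    have h2 := (tendsto_iff_norm_sub_tendsto_zero.1 h1).eventually (gt_mem_nhds hε)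
    filter_upwards [h2] with k hk
    exact hk.le
  obtain ⟨k, h1, h2, h3⟩ := (hev1.and (hev2.and hev3)).exists
  have h1' : u l k ≠ 0 := by exact_mod_cast h1
  refine ⟨fun i => u i k, ψ k, ?_, fun h => h1' (congrFun h l), fun h => ?_, h3⟩
  · have h4 : ψ k ⬝ᵥ (fun i => u i k) = ∑ i, ψ k i * u i k := rfl
    rw [h4, ← Finset.add_sum_erase _ _ (Finset.mem_univ l)]
    have h5 : ∑ i ∈ Finset.univ.erase l, ψ k i * u i k
        = ∑ i ∈ Finset.univ.erase l, w i k * u i k := by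
      refine Finset.sum_congr rfl fun i hi => ?_
      simp [ψ, Finset.ne_of_mem_erase hi]
    rw [h5]
    have h6 : ψ k l = -(∑ i ∈ Finset.univ.erase l, w i k * u i k) / u l k := by simp [ψ]
    rw [h6, div_mul_cancel₀ _ h1']
    ring
  · apply h2
    rw [h]
    simp

/-- rational matrices as matrices over `K` -/
noncomputable def ck (K : Type*) [NormedField K] [CharZero K] :
    Matrix (Fin (m + 2)) (Fin (m + 2)) ℚ →+* Matrix (Fin (m + 2)) (Fin (m + 2)) K :=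
  (Rat.castHom K).mapMatrix

lemma ck_apply (M : Matrix (Fin (m + 2)) (Fin (m + 2)) ℚ) (i j : Fin (m + 2)) :
    ck K M i j = ((M i j : ℚ) : K) := rfl

/-- the growth of the powers of `g` in both directions is realised by eigenvalues in `K` -/
def Extremal (K : Type*) [NormedField K] [CharZero K] {n : ℕ}
    (g : SpecialLinearGroup (Fin n) ℚ) : Prop :=
  ∃ x y : K, ‖y‖ < ‖x‖ ∧ ((g.1.charpoly).map (Rat.castHom K)).IsRoot x ∧
    ((g.1.charpoly).map (Rat.castHom K)).IsRoot y ∧ ∃ C : ℝ, ∀ k : ℕ,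
      (∀ i j, ‖(((g ^ k).1 i j : ℚ) : K)‖ ≤ C * ‖x‖ ^ k) ∧
      (∀ i j, ‖((((g⁻¹) ^ k).1 i j : ℚ) : K)‖ ≤ C * ‖y‖⁻¹ ^ k)

theorem tr_extremal (v : AbsoluteValue ℚ ℝ) (hvK : ∀ q : ℚ, v q = ‖(q : K)‖)
    (hd : ∀ (x : K) (ε : ℝ), 0 < ε → ∃ r : ℚ, ‖x - (r : K)‖ < ε) (g : SLn m)
    (hg : Extremal K g) : Tr0 v g := by
  classical
  obtain ⟨x, y, hxy', hx, hy, C, hC⟩ := hg
  set B : Matrix (Fin (m + 2)) (Fin (m + 2)) K := ck K g.1 with hB
  set B' : Matrix (Fin (m + 2)) (Fin (m + 2)) K := ck K (g⁻¹).1 with hB'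
  have hχ : B.charpoly = (g.1.charpoly).map (Rat.castHom K) := Matrix.charpoly_map _ _
  rw [← hχ] at hx hy
  have hBB' : B' * B = 1 := by
    rw [hB, hB', ← map_mul]
    have : (g⁻¹).1 * g.1 = 1 := by
      have h1 : (g⁻¹ * g).1 = 1 := by rw [inv_mul_cancel]; rfl
      exact h1
    rw [this, map_one]
  obtain ⟨e, he, hBe⟩ := exists_eigvec B x hx
  obtain ⟨f, hf, hBf⟩ := exists_eigvec B y hy
  have hne : ∀ (z : K) (w : Fin (m + 2) → K), w ≠ 0 → B *ᵥ w = z • w → z ≠ 0 := by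
    rintro z w hw hz rfl
    rw [zero_smul] at hz
    apply hw
    have : B' *ᵥ (B *ᵥ w) = w := by rw [Matrix.mulVec_mulVec, hBB', Matrix.one_mulVec]
    rw [← this, hz, Matrix.mulVec_zero]
  have hx00 : x ≠ 0 := hne x e he hBe
  have hy00 : y ≠ 0 := hne y f hf hBf
  have hx0 : 0 < ‖x‖ := norm_pos_iff.2 hx00
  have hy0 : 0 < ‖y‖ := norm_pos_iff.2 hy00
  have hxy : x ≠ y := by
    rintro rfl
    exact lt_irrefl _ hxy'
  set θ : ℝ := 1 - ‖y‖ / ‖x‖ with hθ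
  have hθp : 0 < θ := by
    have : ‖y‖ / ‖x‖ < 1 := (div_lt_one hx0).2 hxy'
    linarith
  have hgap : ∀ (s t : ℝ), 0 < t → t < s → t / s ≤ ‖y‖ / ‖x‖ → ∀ k : ℕ,
      θ * s ^ (k + 1) ≤ s ^ (k + 1) - t ^ (k + 1) := by
    intro s t ht hts hq k
    have hs : 0 < s := ht.trans hts
    have h1 : t ^ (k + 1) ≤ t * s ^ k := by
      rw [pow_succ, mul_comm]
      exact mul_le_mul_of_nonneg_left (pow_le_pow_left₀ ht.le hts.le k) ht.le
    have h2 : t ≤ ‖y‖ / ‖x‖ * s := by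
      rwa [div_le_iff₀ hs] at hq
    have h3 : t * s ^ k ≤ ‖y‖ / ‖x‖ * s * s ^ k :=
      mul_le_mul_of_nonneg_right h2 (by positivity)
    rw [hθ]
    have h4 : ‖y‖ / ‖x‖ * s * s ^ k = ‖y‖ / ‖x‖ * s ^ (k + 1) := by ring
    linarith
  -- a pair of coordinates
  have hij : ∃ i j, f i * e j - f j * e i ≠ 0 := by
    by_contra hc
    push Not at hc
    obtain ⟨j, hj⟩ := Function.ne_iff.1 he
    rw [Pi.zero_apply] at hj
    have hfe : f = (f j / e j) • e := by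
      ext i
      rw [Pi.smul_apply, smul_eq_mul]
      have := hc i j
      field_simp
      linear_combination this
    have h1 : B *ᵥ f = x • f := by
      rw [hfe, Matrix.mulVec_smul, hBe, smul_smul, smul_smul, mul_comm]
    rw [hBf] at h1
    have h2 : (y - x) • f = 0 := by rw [sub_smul, h1, sub_self]
    rcases smul_eq_zero.1 h2 with h3 | h3
    · exact hxy (sub_eq_zero.1 h3).symm
    · exact hf h3
  obtain ⟨i, j, hij⟩ := hij
  set a : Fin (m + 2) → K := e + f with ha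
  set φ : Fin (m + 2) → K := Pi.single j (a i) - Pi.single i (a j) with hφ
  have hφw : ∀ w, φ ⬝ᵥ w = a i * w j - a j * w i := by
    intro w
    rw [hφ, sub_dotProduct, single_dotProduct, single_dotProduct]
  have h0 : φ ⬝ᵥ a = 0 := by rw [hφw]; ring
  set D := f i * e j - f j * e i with hD
  have hφe : φ ⬝ᵥ e = D := by rw [hφw, ha, Pi.add_apply, Pi.add_apply, hD]; ring
  have hφf : φ ⬝ᵥ f = -D := by rw [hφw, ha, Pi.add_apply, Pi.add_apply, hD]; ring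
  have ha0 : a ≠ 0 := by
    intro h
    apply hij
    have : φ = 0 := by rw [hφ, h]; simp
    rw [← hφe, this, zero_dotProduct]
  have hφ0 : φ ≠ 0 := by
    intro h
    apply hij
    rw [← hφe, h, zero_dotProduct]
  have hDp : 0 < ‖D‖ := norm_pos_iff.2 hij
  have hB'e : B' *ᵥ e = x⁻¹ • e := by
    have h1 : B' *ᵥ (B *ᵥ e) = e := by rw [Matrix.mulVec_mulVec, hBB', Matrix.one_mulVec]
    rw [hBe, Matrix.mulVec_smul] at h1
    rw [← h1, smul_smul, inv_mul_cancel₀ (hx00), one_smul, h1]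
  have hB'f : B' *ᵥ f = y⁻¹ • f := by
    have h1 : B' *ᵥ (B *ᵥ f) = f := by rw [Matrix.mulVec_mulVec, hBB', Matrix.one_mulVec]
    rw [hBf, Matrix.mulVec_smul] at h1
    rw [← h1, smul_smul, inv_mul_cancel₀ (hy00), one_smul, h1]
  have hval₁ : ∀ k : ℕ, θ * ‖D‖ * ‖x‖ ^ (k + 1) ≤ ‖φ ⬝ᵥ ((B ^ (k + 1)) *ᵥ a)‖ := by
    intro k
    rw [ha, Matrix.mulVec_add, eig_pow B x e hBe, eig_pow B y f hBf, dotProduct_add,
      dotProduct_smul, dotProduct_smul, hφe, hφf, smul_eq_mul, smul_eq_mul]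
    have h1 : x ^ (k + 1) * D + y ^ (k + 1) * -D = D * (x ^ (k + 1) + -(y ^ (k + 1))) := by ring
    have h3 := norm_sub_norm_le (x ^ (k + 1)) (y ^ (k + 1))
    rw [norm_pow, norm_pow] at h3
    have h4 := hgap ‖x‖ ‖y‖ hy0 hxy' le_rfl k
    rw [h1, norm_mul, ← sub_eq_add_neg, mul_comm θ, mul_assoc]
    exact mul_le_mul_of_nonneg_left (h4.trans h3) hDp.le
  have hval₂ : ∀ k : ℕ, θ * ‖D‖ * ‖y‖⁻¹ ^ (k + 1) ≤ ‖φ ⬝ᵥ ((B' ^ (k + 1)) *ᵥ a)‖ := by
    intro k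
    rw [ha, Matrix.mulVec_add, eig_pow B' x⁻¹ e hB'e, eig_pow B' y⁻¹ f hB'f, dotProduct_add,
      dotProduct_smul, dotProduct_smul, hφe, hφf, smul_eq_mul, smul_eq_mul]
    have h1 : x⁻¹ ^ (k + 1) * D + y⁻¹ ^ (k + 1) * -D
        = -D * (y⁻¹ ^ (k + 1) + -(x⁻¹ ^ (k + 1))) := by ring
    have h3 := norm_sub_norm_le (y⁻¹ ^ (k + 1)) (x⁻¹ ^ (k + 1))
    rw [norm_pow, norm_pow, norm_inv, norm_inv] at h3
    have h4 := hgap ‖y‖⁻¹ ‖x‖⁻¹ (inv_pos.2 hx0) (inv_strictAnti₀ hy0 hxy') (by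
      rw [inv_div_inv]) k
    rw [h1, norm_mul, norm_neg, ← sub_eq_add_neg, mul_comm θ, mul_assoc]
    exact mul_le_mul_of_nonneg_left (h4.trans h3) hDp.le
  -- combine
  set Q : ℝ := (((m + 2 : ℕ) : ℝ) * ((m + 2 : ℕ) : ℝ) * (|C| + 1)) / (θ * ‖D‖) with hQ
  have hQp : 0 < Q := by positivity
  have hsum : ∀ (M : Matrix (Fin (m + 2)) (Fin (m + 2)) K) (T : ℝ), (∀ i j, ‖M i j‖ ≤ C * T) →
      0 ≤ T → kn M ≤ Q * (θ * ‖D‖ * T) := by
    intro M T hM hT
    have h1 : kn M ≤ ∑ _i : Fin (m + 2), ∑ _j : Fin (m + 2), (|C| + 1) * T := by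
      refine Finset.sum_le_sum fun i _ => Finset.sum_le_sum fun j _ => (hM i j).trans ?_
      exact mul_le_mul_of_nonneg_right (by have := le_abs_self C; linarith) hT
    refine h1.trans (le_of_eq ?_)
    simp only [Finset.sum_const, Finset.card_univ, Fintype.card_fin, nsmul_eq_mul]
    rw [hQ]; field_simp
  have hall : ∀ k : ℤ, k ≠ 0 → kn (ck K (g ^ k).1) ≤ Q * ‖φ ⬝ᵥ (ck K (g ^ k).1 *ᵥ a)‖ := by
    intro k hk
    rcases lt_or_gt_of_ne hk with hk0 | hk0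
    · obtain ⟨j, hj⟩ : ∃ j : ℕ, k = -((j + 1 : ℕ) : ℤ) := ⟨(-k - 1).toNat, by omega⟩
      have h2 : (g ^ k) = (g⁻¹) ^ (j + 1) := by
        rw [hj, _root_.zpow_neg, zpow_natCast, inv_pow]
      have h3 : ck K (g ^ k).1 = B' ^ (j + 1) := by rw [h2, hB', ← map_pow]; rfl
      have h5 : ∀ a b, ‖(B' ^ (j + 1)) a b‖ ≤ C * ‖y‖⁻¹ ^ (j + 1) := by
        intro a b
        rw [← h3, h2]
        exact (hC (j + 1)).2 a b
      rw [h3]
      refine (hsum _ _ h5 (by positivity)).trans ?_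
      exact mul_le_mul_of_nonneg_left (hval₂ j) hQp.le
    · obtain ⟨j, hj⟩ : ∃ j : ℕ, k = ((j + 1 : ℕ) : ℤ) := ⟨(k - 1).toNat, by omega⟩
      have h3 : ck K (g ^ k).1 = B ^ (j + 1) := by rw [hj, zpow_natCast, hB, ← map_pow]; rfl
      have h5 : ∀ a b, ‖(B ^ (j + 1)) a b‖ ≤ C * ‖x‖ ^ (j + 1) := by
        intro a b
        rw [← h3, hj, zpow_natCast]
        exact (hC (j + 1)).1 a b
      rw [h3]
      refine (hsum _ _ h5 (by positivity)).trans ?_
      exact mul_le_mul_of_nonneg_left (hval₁ j) hQp.le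
  obtain ⟨a', φ', h0', ha', hφ', happ⟩ := rat_flag_K hd a φ h0 ha0 hφ0 (1 / (2 * Q)) (by positivity)
  refine ⟨a', φ', h0', ha', hφ', 2 * Q, fun k hk => ?_⟩
  have hk0 : k ≠ 0 := by
    rintro rfl
    rw [zpow_zero] at hk
    exact hk (Subgroup.one_mem _)
  set M := (g ^ k).1 with hM
  have hopn : opn v M = kn (ck K M) := by
    unfold opn kn
    refine Finset.sum_congr rfl fun i _ => Finset.sum_congr rfl fun j _ => ?_
    rw [ck_apply, hvK]
  have h1 := hall k hk0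
  rw [← hM] at h1
  have hval : v (φ' ⬝ᵥ (M *ᵥ a'))
      = ‖∑ i, ∑ j, ck K M i j * (((φ' i : ℚ) : K) * ((a' j : ℚ) : K))‖ := by
    rw [hvK]
    congr 1
    simp only [dotProduct, Matrix.mulVec]
    push_cast
    refine Finset.sum_congr rfl fun i _ => ?_
    rw [Finset.mul_sum]
    exact Finset.sum_congr rfl fun j _ => by rw [ck_apply]; ring
  have hval2 : φ ⬝ᵥ (ck K M *ᵥ a) = ∑ i, ∑ j, ck K M i j * (φ i * a j) := by
    simp only [dotProduct, Matrix.mulVec]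
    refine Finset.sum_congr rfl fun i _ => ?_
    rw [Finset.mul_sum]
    exact Finset.sum_congr rfl fun j _ => by ring
  have hdiff : ‖(∑ i, ∑ j, ck K M i j * (((φ' i : ℚ) : K) * ((a' j : ℚ) : K)))
      - ∑ i, ∑ j, ck K M i j * (φ i * a j)‖ ≤ kn (ck K M) * (1 / (2 * Q)) := by
    rw [← Finset.sum_sub_distrib]
    refine (norm_sum_le _ _).trans ?_
    unfold kn
    rw [Finset.sum_mul]
    refine Finset.sum_le_sum fun i _ => ?_
    rw [← Finset.sum_sub_distrib]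
    refine (norm_sum_le _ _).trans ?_
    rw [Finset.sum_mul]
    refine Finset.sum_le_sum fun j _ => ?_
    rw [← mul_sub, norm_mul]
    exact mul_le_mul_of_nonneg_left (happ i j) (norm_nonneg _)
  rw [hval2] at h1
  rw [hopn, hval]
  set S' := ∑ i, ∑ j, ck K M i j * (((φ' i : ℚ) : K) * ((a' j : ℚ) : K)) with hS'
  set S := ∑ i, ∑ j, ck K M i j * (φ i * a j) with hS
  have h3 : ‖S‖ ≤ ‖S'‖ + ‖S' - S‖ := by
    have := norm_sub_le S' (S' - S)
    rwa [sub_sub_cancel] at this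
  have h4 : Q * ‖S‖ ≤ Q * ‖S'‖ + Q * (kn (ck K M) * (1 / (2 * Q))) := by
    rw [← mul_add]
    exact mul_le_mul_of_nonneg_left (h3.trans (by linarith)) hQp.le
  have h5 : Q * (kn (ck K M) * (1 / (2 * Q))) = kn (ck K M) / 2 := by field_simp
  rw [h5] at h4
  linarith

end field

end Pool.Agent.helper77.IG
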