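import Pool.Agent.helper77.IG.Split

/-! # Discrete subgroups of `SL_n(ℚ)` meeting many conjugacy classes -/

namespace Pool.Agent.helper77.IG

open Matrix

/-- all eigenvalues of `g` lie in `ℚ_p`, and not all of them are units -/
def SplitNonunit (p : ℕ) [Fact p.Prime] {n : ℕ} (g : SpecialLinearGroup (Fin n) ℚ) : Prop :=
  ((g.1.charpoly).map (Rat.castHom ℚ_[p])).Splits ∧
    ∃ μ ∈ ((g.1.charpoly).map (Rat.castHom ℚ_[p])).roots, ‖μ‖ ≠ 1

theorem engine0 {m : ℕ} (v : AbsoluteValue ℚ ℝ) (hv : v.IsNontrivial) :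
    ∃ H : Subgroup (SLn m), H ≠ ⊤ ∧ DiscreteAt v H ∧
      (∀ g : SLn m, Tr v g → Meets H g) ∧ (∀ g : SLn m, Tr0 v g → Meets H g) := by
  obtain ⟨H, h1, h2⟩ := engine (m := m) v hv
  refine ⟨H, ne_top_of_discrete v hv H h1, h1, h2, fun g hg => ?_⟩
  obtain ⟨y, hy⟩ := tr_of_tr0 v g hg
  obtain ⟨x, hx⟩ := h2 _ hy
  refine ⟨x * y, ?_⟩
  have : x * y * g * (x * y)⁻¹ = x * (y * g * y⁻¹) * x⁻¹ := by
    rw [_root_.mul_inv_rev]; simp only [mul_assoc]
  rw [this]
  exact hx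

theorem main_real (n : ℕ) (hn : 2 ≤ n) : ∃ H : Subgroup (SpecialLinearGroup (Fin n) ℚ),
    H ≠ ⊤ ∧ DiscreteAt Rat.AbsoluteValue.real H ∧
      ∀ g : SpecialLinearGroup (Fin n) ℚ, (VirtuallyReal g ∨ Extremal ℝ g) → Meets H g := by
  obtain ⟨m, rfl⟩ := Nat.exists_eq_add_of_le' hn
  have hv : (Rat.AbsoluteValue.real).IsNontrivial := by
    refine ⟨2, two_ne_zero, ?_⟩
    rw [Rat.AbsoluteValue.real_eq_abs]
    norm_num
  obtain ⟨H, h0, h1, h2, h3⟩ := engine0 (m := m) Rat.AbsoluteValue.real hv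
  refine ⟨H, h0, h1, ?_⟩
  rintro g (⟨N, hN, hs⟩ | hg)
  · refine h2 g (tr_real g N hN ?_)
    have : (algebraMap ℚ ℝ) = Rat.castHom ℝ := Subsingleton.elim _ _
    rw [this]
    exact hs
  · refine h3 g (tr_extremal (K := ℝ) _ (fun q => ?_) (fun x ε hε => ?_) g hg)
    · rw [Rat.AbsoluteValue.real_eq_abs, Real.norm_eq_abs, Rat.cast_abs]
    · obtain ⟨r, hr⟩ := exists_rat_near x hε
      exact ⟨r, by rwa [Real.norm_eq_abs]⟩

theorem main_padic (p : ℕ) [hp : Fact p.Prime] (n : ℕ) (hn : 2 ≤ n) :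
    ∃ H : Subgroup (SpecialLinearGroup (Fin n) ℚ),
      H ≠ ⊤ ∧ DiscreteAt (Rat.AbsoluteValue.padic p) H ∧
      ∀ g : SpecialLinearGroup (Fin n) ℚ, (IsOfFinOrder g ∨ SplitNonunit p g ∨
        Extremal ℚ_[p] g ∨ (n = 2 ∧ 1 < padicNorm p g.1.trace)) → Meets H g := by
  obtain ⟨m, rfl⟩ := Nat.exists_eq_add_of_le' hn
  have hv : (Rat.AbsoluteValue.padic p).IsNontrivial := by
    refine ⟨p, by exact_mod_cast hp.out.ne_zero, ?_⟩
    rw [Rat.AbsoluteValue.padic_eq_padicNorm, padicNorm.padicNorm_p_of_prime]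
    have : (1 : ℝ) < p := by exact_mod_cast hp.out.one_lt
    push_cast
    intro h
    have h2 : (p : ℝ) = 1 := by rw [← inv_inv (p : ℝ), h, inv_one]
    linarith
  obtain ⟨H, h0, h1, h2, h3⟩ := engine0 (m := m) (Rat.AbsoluteValue.padic p) hv
  have hext : ∀ g : SLn m, Extremal ℚ_[p] g → Meets H g := by
    intro g hg
    refine h3 g (tr_extremal (K := ℚ_[p]) _ (fun q => ?_) (fun x ε hε => Padic.rat_dense p x hε)
      g hg)
    rw [Rat.AbsoluteValue.padic_eq_padicNorm, Padic.eq_padicNorm]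
  refine ⟨H, h0, h1, ?_⟩
  rintro g (hg | ⟨hs, hu⟩ | hg | ⟨hn2, hg⟩)
  · exact h2 g (tr_finite _ g hg)
  · exact hext g (extremal_of_split g hs hu)
  · exact hext g hg
  · obtain rfl : m = 0 := by omega
    refine h2 g (tr_two _ g (fun x y h => exp_padic p _ hg x y h) fun c hc => ?_)
    have hd : g.1.det = 1 := g.2
    rw [hc, Matrix.det_smul, Matrix.det_one, mul_one] at hd
    have hc2 : c ^ 2 = 1 := by simpa using hd
    have hc1 : c = 1 ∨ c = -1 := by
      have h4 : (c - 1) * (c + 1) = 0 := by linear_combination hc2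
      rcases mul_eq_zero.1 h4 with h | h
      · left; linarith
      · right; linarith
    have ht : g.1.trace = 2 * c := by
      rw [hc, Matrix.trace_smul, Matrix.trace_one]
      simp
      ring
    rw [ht] at hg
    have h3 : padicNorm p (2 * c) ≤ 1 := by
      rcases hc1 with h | h
      · rw [h]
        have := padicNorm.of_int (p := p) 2
        simpa using this
      · rw [h]
        have := padicNorm.of_int (p := p) (-2)
        simpa using this
    exact absurd hg (not_lt.2 h3)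

end Pool.Agent.helper77.IG
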