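import Pool.Agent.helper77.IG.Dir

/-! # Generic flags -/

namespace Pool.Agent.helper77.IG

open Matrix Filter Topology Polynomial

variable {m : ℕ}

/-- real matrices -/
abbrev RM (m : ℕ) := Matrix (Fin (m + 2)) (Fin (m + 2)) ℝ

/-- not a scalar matrix -/
def Nsc (M : RM m) : Prop := ∀ c : ℝ, M ≠ c • (1 : RM m)

/-- `ℓ¹` norm of a real matrix -/
noncomputable def rn (M : RM m) : ℝ := ∑ i, ∑ j, |M i j|

lemma rn_nonneg (M : RM m) : 0 ≤ rn M :=
  Finset.sum_nonneg fun _ _ => Finset.sum_nonneg fun _ _ => abs_nonneg _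

/-- uniform transversality along a sequence `A ^ k * G` -/
lemma uniform_seq {A G : RM m} (hA : PosKill A) (hdA : A.det = 1) (hdG : G.det = 1) :
    ∃ 𝒩 : Set (RM m), 𝒩.Countable ∧ (∀ M ∈ 𝒩, Nsc M) ∧
      ∀ a φ : Fin (m + 2) → ℝ, (∀ M ∈ 𝒩, φ ⬝ᵥ (M *ᵥ a) ≠ 0) →
        (∀ k : ℕ, Nsc (A ^ k * G) → φ ⬝ᵥ ((A ^ k * G) *ᵥ a) ≠ 0) →
        ∃ ε : ℝ, 0 < ε ∧ ∀ k : ℕ, Nsc (A ^ k * G) →
          ε * rn (A ^ k * G) ≤ |φ ⬝ᵥ ((A ^ k * G) *ᵥ a)| := by
  classical
  by_cases hA1 : A = 1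
  · refine ⟨∅, Set.countable_empty, by simp, fun a φ _ h => ?_⟩
    have e : ∀ k : ℕ, A ^ k * G = G := fun k => by rw [hA1, one_pow, one_mul]
    simp only [e] at h ⊢
    by_cases hG : Nsc G
    · have h1 := abs_pos.2 (h 0 hG)
      have h2 : 0 < rn G + 1 := by have := rn_nonneg G; linarith
      refine ⟨|φ ⬝ᵥ (G *ᵥ a)| / (rn G + 1), by positivity, fun k _ => ?_⟩
      rw [div_mul_eq_mul_div, div_le_iff₀ h2]
      have := rn_nonneg G
      nlinarith
    · exact ⟨1, one_pos, fun k hk => absurd hk hG⟩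
  · have hdet : ∀ k, (A ^ k * G).det = 1 := fun k => by
      rw [Matrix.det_mul, Matrix.det_pow, hdA, hdG, one_pow, one_mul]
    have hne : ∀ k, A ^ k * G ≠ 0 := by
      intro k h
      have := hdet k
      rw [h, Matrix.det_zero] at this
      exact zero_ne_one this
    obtain ⟨c, L, hc0, hL0, hall, hL, hcq⟩ := exists_dir (tame_pow G hA) hne
    have hLd : L.det = 0 := dir_det hdA hdG hA1 hc0 hL hcq
    have hLn : Nsc L := by
      intro t ht
      rw [ht, Matrix.det_smul, Matrix.det_one, mul_one] at hLd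
      have : t = 0 := (pow_eq_zero_iff (by simp)).1 hLd
      rw [this, zero_smul] at ht
      exact hL0 ht
    refine ⟨{L}, Set.countable_singleton _, by simpa using hLn, fun a φ h1 h2 => ?_⟩
    have hLa : φ ⬝ᵥ (L *ᵥ a) ≠ 0 := h1 L rfl
    have hlim : Tendsto (fun k => (φ ⬝ᵥ ((A ^ k * G) *ᵥ a)) / c k) atTop (𝓝 (φ ⬝ᵥ (L *ᵥ a))) := by
      have e : ∀ k, (φ ⬝ᵥ ((A ^ k * G) *ᵥ a)) / c k
          = ∑ i, φ i * ∑ j, (A ^ k * G) i j / c k * a j := by
        intro k
        simp only [dotProduct, Matrix.mulVec]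
        rw [Finset.sum_div]
        refine Finset.sum_congr rfl fun i _ => ?_
        rw [mul_div_assoc, Finset.sum_div]
        congr 1
        exact Finset.sum_congr rfl fun j _ => by ring
      simp only [e]
      simp only [dotProduct, Matrix.mulVec]
      exact tendsto_finsetSum _ fun i _ => (tendsto_finsetSum _ fun j _ =>
        (hL i j).mul_const _).const_mul _
    set B := |φ ⬝ᵥ (L *ᵥ a)| with hB
    have hBp : 0 < B := abs_pos.2 hLa
    set n2 : ℝ := ((m + 2 : ℕ) : ℝ) * ((m + 2 : ℕ) : ℝ) with hn2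
    have hn2p : 0 < n2 := by positivity
    have hev : ∀ᶠ k in atTop, B / (2 * n2) * rn (A ^ k * G) ≤ |φ ⬝ᵥ ((A ^ k * G) *ᵥ a)| := by
      have h3 := (hlim.abs).eventually (lt_mem_nhds (show B / 2 < |φ ⬝ᵥ (L *ᵥ a)| by
        rw [← hB]; linarith))
      filter_upwards [h3, hc0, hall] with k h3 h4 h5
      have h6 : rn (A ^ k * G) ≤ n2 * |c k| := by
        have : rn (A ^ k * G) ≤ ∑ _i : Fin (m + 2), ∑ _j : Fin (m + 2), |c k| :=
          Finset.sum_le_sum fun i _ => Finset.sum_le_sum fun j _ => h5 i j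
        refine this.trans (le_of_eq ?_)
        simp only [Finset.sum_const, Finset.card_univ, Fintype.card_fin, nsmul_eq_mul]
        rw [hn2]; ring
      rw [abs_div, lt_div_iff₀ (abs_pos.2 h4)] at h3
      calc B / (2 * n2) * rn (A ^ k * G) ≤ B / (2 * n2) * (n2 * |c k|) :=
            mul_le_mul_of_nonneg_left h6 (by positivity)
        _ = B / 2 * |c k| := by field_simp
        _ ≤ _ := h3.le
    obtain ⟨K, hK⟩ := eventually_atTop.1 hev
    -- the finite initial segment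
    have hseg : ∀ K : ℕ, ∃ ε : ℝ, 0 < ε ∧ ∀ k < K, Nsc (A ^ k * G) →
        ε * rn (A ^ k * G) ≤ |φ ⬝ᵥ ((A ^ k * G) *ᵥ a)| := by
      intro K
      induction K with
      | zero => exact ⟨1, one_pos, fun k hk => absurd hk (Nat.not_lt_zero _)⟩
      | succ K ih =>
        obtain ⟨ε, hε, h⟩ := ih
        by_cases hK' : Nsc (A ^ K * G)
        · have h3 := abs_pos.2 (h2 K hK')
          have h4 : 0 < rn (A ^ K * G) + 1 := by have := rn_nonneg (A ^ K * G); linarith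
          refine ⟨min ε (|φ ⬝ᵥ ((A ^ K * G) *ᵥ a)| / (rn (A ^ K * G) + 1)),
            lt_min hε (by positivity), fun k hk hk' => ?_⟩
          rcases Nat.lt_succ_iff_lt_or_eq.1 hk with h5 | rfl
          · exact (mul_le_mul_of_nonneg_right (min_le_left _ _) (rn_nonneg _)).trans (h k h5 hk')
          · refine (mul_le_mul_of_nonneg_right (min_le_right _ _) (rn_nonneg _)).trans ?_
            rw [div_mul_eq_mul_div, div_le_iff₀ h4]
            have := rn_nonneg (A ^ k * G)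
            nlinarith
        · refine ⟨ε, hε, fun k hk hk' => ?_⟩
          rcases Nat.lt_succ_iff_lt_or_eq.1 hk with h5 | rfl
          · exact h k h5 hk'
          · exact absurd hk' hK'
    obtain ⟨ε, hε, h3⟩ := hseg K
    refine ⟨min ε (B / (2 * n2)), lt_min hε (by positivity), fun k hk => ?_⟩
    rcases lt_or_ge k K with h4 | h4
    · exact (mul_le_mul_of_nonneg_right (min_le_left _ _) (rn_nonneg _)).trans (h3 k h4 hk)
    · exact (mul_le_mul_of_nonneg_right (min_le_right _ _) (rn_nonneg _)).trans (hK k h4)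

/-- countably many nonzero polynomials have a common non-root -/
lemma common_nonroot (S : Set ℝ[X]) (hS : S.Countable) (h : ∀ P ∈ S, P ≠ 0) :
    ∃ t : ℝ, ∀ P ∈ S, P.eval t ≠ 0 := by
  by_contra hc
  push Not at hc
  have h1 : (Set.univ : Set ℝ) ⊆ ⋃ P ∈ S, {t | P.IsRoot t} := by
    intro t _
    obtain ⟨P, hP, hPt⟩ := hc t
    simp only [Set.mem_iUnion]
    exact ⟨P, hP, hPt⟩
  have h2 : (⋃ P ∈ S, {t : ℝ | P.IsRoot t}).Countable :=
    hS.biUnion fun P hP => (Polynomial.finite_setOfPred_isRoot (h P hP)).countable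
  exact Cardinal.not_countable_real (h2.mono h1)

/-- moment curve -/
def mc (t : ℝ) (i : Fin (m + 2)) : ℝ := t ^ (i : ℕ)

/-- the polynomial of a vector -/
noncomputable def vp (w : Fin (m + 2) → ℝ) : ℝ[X] := ∑ i : Fin (m + 2), C (w i) * X ^ (i : ℕ)

lemma vp_eval (w : Fin (m + 2) → ℝ) (t : ℝ) : (vp w).eval t = mc t ⬝ᵥ w := by
  unfold vp mc dotProduct
  rw [eval_finsetSum]
  exact Finset.sum_congr rfl fun i _ => by simp; ring

lemma vp_coeff (w : Fin (m + 2) → ℝ) (i : Fin (m + 2)) : (vp w).coeff i = w i := by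
  unfold vp
  rw [finsetSum_coeff, Finset.sum_eq_single i]
  · simp
  · intro j _ hj
    rw [coeff_C_mul_X_pow, if_neg]
    intro h
    exact hj (Fin.ext h.symm)
  · simp

lemma vp_ne (w : Fin (m + 2) → ℝ) (hw : w ≠ 0) : vp w ≠ 0 := by
  intro h
  apply hw
  ext i
  rw [← vp_coeff w i, h, coeff_zero, Pi.zero_apply]

lemma vp_natDegree (w : Fin (m + 2) → ℝ) (k : ℕ) (hk : m + 2 ≤ k) : (vp w).coeff k = 0 := by
  unfold vp
  rw [finsetSum_coeff]
  refine Finset.sum_eq_zero fun j _ => ?_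
  rw [coeff_C_mul_X_pow, if_neg]
  omega

/-- eigenvector polynomial -/
noncomputable def ep (M : RM m) (i : Fin (m + 2)) : ℝ[X] := vp (M i) - X ^ (i : ℕ) * vp (M 0)

lemma ep_ne {M : RM m} (hM : Nsc M) : ∃ i, ep M i ≠ 0 := by
  by_contra h
  push Not at h
  apply hM (M 0 0)
  -- first row
  have h0 : ∀ j : Fin (m + 2), j ≠ 0 → M 0 j = 0 := by
    intro j hj
    have h1 := congrArg (fun P => Polynomial.coeff P ((m + 1) + (j : ℕ))) (h (Fin.last (m + 1)))
    simp only [ep, coeff_sub, coeff_zero, Fin.val_last] at h1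
    rw [add_comm (m + 1) (j : ℕ), coeff_X_pow_mul, vp_coeff, vp_natDegree, zero_sub, neg_eq_zero] at h1
    · exact h1
    · have : 0 < (j : ℕ) := Nat.pos_of_ne_zero fun h => hj (Fin.ext h)
      omega
  have hvp0 : vp (M 0) = C (M 0 0) := by
    unfold vp
    rw [Finset.sum_eq_single 0]
    · simp
    · intro j _ hj
      rw [h0 j hj]; simp
    · simp
  ext i j
  have h1 := congrArg (fun P => Polynomial.coeff P (j : ℕ)) (h i)
  simp only [ep, coeff_sub, coeff_zero] at h1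
  rw [vp_coeff, hvp0, mul_comm, coeff_C_mul_X_pow, sub_eq_zero] at h1
  rw [h1, Matrix.smul_apply, Matrix.one_apply, smul_eq_mul]
  by_cases hij : i = j
  · subst hij; simp
  · rw [if_neg, if_neg hij, mul_zero]
    intro h
    exact hij (Fin.ext h.symm)

/-- generic real flags -/
theorem generic_flag (𝒩 : Set (RM m)) (hc : 𝒩.Countable) (hn : ∀ M ∈ 𝒩, Nsc M) :
    ∃ a φ : Fin (m + 2) → ℝ, φ ⬝ᵥ a = 0 ∧ a (Fin.last (m + 1)) ≠ 0 ∧ φ 0 ≠ 0 ∧
      ∀ M ∈ 𝒩, φ ⬝ᵥ (M *ᵥ a) ≠ 0 := by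
  classical
  -- the vector
  choose! I hI using fun (M : RM m) (hM : Nsc M) => ep_ne hM
  obtain ⟨t, ht⟩ := common_nonroot (insert X ((fun M => ep M (I M)) '' 𝒩))
    ((hc.image _).insert _) (by
      rintro P (rfl | ⟨M, hM, rfl⟩)
      · exact X_ne_zero
      · exact hI M (hn M hM))
  have ht0 : t ≠ 0 := by simpa using ht X (Set.mem_insert _ _)
  set a : Fin (m + 2) → ℝ := mc t with ha
  have ha0 : a 0 = 1 := by simp [ha, mc]
  have hal : a (Fin.last (m + 1)) ≠ 0 := by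
    rw [ha]; exact pow_ne_zero _ ht0
  have haa : 0 < a ⬝ᵥ a := by
    have h1 : a ⬝ᵥ a = ∑ i, a i * a i := rfl
    rw [h1]
    refine Finset.sum_pos' (fun i _ => mul_self_nonneg _) ⟨0, Finset.mem_univ _, ?_⟩
    rw [ha0]; norm_num
  have heig : ∀ M ∈ 𝒩, ∀ μ : ℝ, M *ᵥ a ≠ μ • a := by
    intro M hM μ hμ
    have h1 := ht _ (Set.mem_insert_of_mem _ ⟨M, hM, rfl⟩)
    apply h1
    have h2 : ∀ i, (M *ᵥ a) i = μ * a i := fun i => by rw [hμ]; rfl
    have h3 : (M *ᵥ a) 0 = μ := by rw [h2, ha0, mul_one]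
    change (ep M (I M)).eval t = 0
    rw [ep, eval_sub, eval_mul, eval_pow, eval_X, vp_eval, vp_eval]
    have h4 : ∀ i, mc t ⬝ᵥ M i = (M *ᵥ a) i := fun i => dotProduct_comm _ _
    rw [h4, h4, h2, h3]
    have : a (I M) = t ^ ((I M : Fin (m + 2)) : ℕ) := rfl
    rw [this]; ring
  -- the linear form
  let cv : (Fin (m + 2) → ℝ) → (Fin (m + 2) → ℝ) := fun w => w - ((a ⬝ᵥ w) / (a ⬝ᵥ a)) • a
  have hcv : ∀ w s, (mc s - ((mc s ⬝ᵥ a) / (a ⬝ᵥ a)) • a) ⬝ᵥ w = mc s ⬝ᵥ cv w := by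
    intro w s
    simp only [cv, sub_dotProduct, dotProduct_sub, smul_dotProduct, dotProduct_smul, smul_eq_mul]
    ring
  have hcv0 : ∀ w, (∀ μ : ℝ, w ≠ μ • a) → cv w ≠ 0 := by
    intro w hw h
    exact hw _ (sub_eq_zero.1 h)
  obtain ⟨s, hs⟩ := common_nonroot (insert (vp (cv (Pi.single 0 1)))
    ((fun M => vp (cv (M *ᵥ a))) '' 𝒩)) ((hc.image _).insert _) (by
      rintro P (rfl | ⟨M, hM, rfl⟩)
      · refine vp_ne _ (hcv0 _ fun μ h => ?_)
        have h1 := congrFun h (Fin.last (m + 1))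
        rw [Pi.single_eq_of_ne (Fin.last_pos).ne', Pi.smul_apply, smul_eq_mul] at h1
        have h2 := congrFun h 0
        rw [Pi.single_eq_same, Pi.smul_apply, ha0, smul_eq_mul, mul_one] at h2
        rw [← h2, one_mul] at h1
        exact hal h1.symm
      · exact vp_ne _ (hcv0 _ (heig M hM)))
  refine ⟨a, mc s - ((mc s ⬝ᵥ a) / (a ⬝ᵥ a)) • a, ?_, hal, ?_, fun M hM => ?_⟩
  · rw [sub_dotProduct, smul_dotProduct, smul_eq_mul, div_mul_cancel₀ _ haa.ne', sub_self]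
  · have h1 := hs _ (Set.mem_insert _ _)
    rw [vp_eval, ← hcv] at h1
    intro h
    apply h1
    rw [dotProduct_single, h, zero_mul]
  · have h1 := hs _ (Set.mem_insert_of_mem _ ⟨M, hM, rfl⟩)
    simp only at h1
    rw [vp_eval, ← hcv] at h1
    exact h1

end Pool.Agent.helper77.IG
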