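import Pool.Agent.helper77.IG.Two

/-! # Discrete subgroups of `SL_n(ℚ)`: definitions -/

namespace Pool.Agent.helper77.IG

open Matrix

/-- `H ≤ SL_n(ℚ)` is discrete for the topology of the absolute value `v`: the entries of `h - 1`
are not all small, uniformly for `1 ≠ h ∈ H`. -/
def DiscreteAt (v : AbsoluteValue ℚ ℝ) {n : ℕ} (H : Subgroup (SpecialLinearGroup (Fin n) ℚ)) :
    Prop :=
  ∃ ε : ℝ, 0 < ε ∧ ∀ h ∈ H, h ≠ 1 →
    ∃ i j, ε ≤ v (h.1 i j - (1 : Matrix (Fin n) (Fin n) ℚ) i j)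

/-- the class of `g` meets `H` -/
def Meets {n : ℕ} (H : Subgroup (SpecialLinearGroup (Fin n) ℚ))
    (g : SpecialLinearGroup (Fin n) ℚ) : Prop := ∃ x, x * g * x⁻¹ ∈ H

/-- some power of `g` has only real eigenvalues -/
def VirtuallyReal {n : ℕ} (g : SpecialLinearGroup (Fin n) ℚ) : Prop :=
  ∃ N : ℕ, 0 < N ∧ (((g ^ N).1.charpoly).map (Rat.castHom ℝ)).Splits

lemma ne_top_of_discrete {m : ℕ} (v : AbsoluteValue ℚ ℝ) (hv : v.IsNontrivial)
    (H : Subgroup (SLn m)) (h : DiscreteAt v H) : H ≠ ⊤ := by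
  rintro rfl
  obtain ⟨ε, hε, h⟩ := h
  obtain ⟨c, hc, -, hcB⟩ := large v hv (1 / ε + 1)
  have hvc : 0 < v c := v.pos hc
  have hlt : v c⁻¹ < ε := by
    rw [map_inv₀, inv_lt_comm₀ hvc hε]
    have : 1 / ε < v c := by linarith
    rwa [one_div] at this
  set x : SLn m := SpecialLinearGroup.transvection (Fin.last_pos).ne' c⁻¹ with hx
  have hxv : ∀ i j, x.1 i j - (1 : Matrix (Fin (m + 2)) (Fin (m + 2)) ℚ) i j
      = Matrix.single (Fin.last (m + 1)) 0 c⁻¹ i j := by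
    intro i j
    change Matrix.transvection (Fin.last (m + 1)) 0 c⁻¹ i j - _ = _
    rw [Matrix.transvection, Matrix.add_apply]
    ring
  have hx1 : x ≠ 1 := by
    intro h1
    have h2 := hxv (Fin.last (m + 1)) 0
    rw [h1] at h2
    simp at h2
    exact hc h2.symm
  obtain ⟨i, j, hij⟩ := h x (Subgroup.mem_top _) hx1
  rw [hxv, Matrix.single_apply] at hij
  split_ifs at hij
  · linarith
  · rw [map_zero] at hij; linarith

end Pool.Agent.helper77.IG
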