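import Mathlib

/-! # Ping-pong for infinitely many cyclic groups, with a base set -/

namespace Pool.Agent.helper77.IG

open Monoid
open scoped Pointwise

/-- A family of cyclic groups playing ping-pong (modulo the kernel of the action), together with a
base set `X none`: the group generated by them and by the kernel of the action moves the base set
into the other sets. -/
theorem pp {G : Type*} [Group G] {α : Type*} [MulAction G α] {ι : Type*} (h : ι → G)
    (X : Option ι → Set α)
    (hpp : ∀ i : ι, ∀ j : Option ι, j ≠ some i → ∀ k : ℤ,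
      MulAction.toPermHom G α (h i ^ k) ≠ 1 → ∀ x ∈ X j, h i ^ k • x ∈ X (some i)) :
    ∃ H : Subgroup G, (∀ g, MulAction.toPermHom G α g = 1 → g ∈ H) ∧ (∀ i, h i ∈ H) ∧
      ∀ g ∈ H, MulAction.toPermHom G α g = 1 ∨ ∃ i, ∀ x ∈ X none, g • x ∈ X (some i) := by
  classical
  set π := MulAction.toPermHom G α with hπ
  let K : Option ι → Subgroup (Equiv.Perm α) := fun i => match i with
    | none => ⊥
    | some i => Subgroup.zpowers (π (h i))
  let f : ∀ i, K i →* Equiv.Perm α := fun i => (K i).subtype
  have hpp' : Pairwise fun i j => ∀ g : K i, g ≠ 1 → f i g • X j ⊆ X i := by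
    intro i j hij g hg
    cases i with
    | none => exact absurd (Subsingleton.elim (α := (⊥ : Subgroup (Equiv.Perm α))) g 1) hg
    | some i =>
      obtain ⟨k, hk⟩ := Subgroup.mem_zpowers_iff.1 g.2
      have hk' : π (h i ^ k) = g := by rw [map_zpow]; exact hk
      rintro _ ⟨x, hx, rfl⟩
      have h1 := hpp i j (Ne.symm hij) k (by
        rw [hk']
        intro h1
        exact hg (Subtype.ext h1)) x hx
      change (g : Equiv.Perm α) x ∈ X (some i)
      rw [← hk']
      exact h1
  have hhead : ∀ {i j : Option ι} (w : CoprodI.NeWord (fun i => K i) i j), i ≠ none := by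
    intro i j w
    induction w with
    | singleton x hx =>
      rename_i i
      rintro rfl
      exact absurd (Subsingleton.elim (α := (⊥ : Subgroup (Equiv.Perm α))) x 1) hx
    | append w1 _ w2 h1 h2 => exact h1
  have hlast : ∀ {i j : Option ι} (w : CoprodI.NeWord (fun i => K i) i j), j ≠ none := by
    intro i j w
    induction w with
    | singleton x hx =>
      rename_i i
      rintro rfl
      exact absurd (Subsingleton.elim (α := (⊥ : Subgroup (Equiv.Perm α))) x 1) hx
    | append w1 _ w2 h1 h2 => exact h2
  refine ⟨(CoprodI.lift f).range.comap π, fun g hg => ?_, fun i => ?_, fun g hg => ?_⟩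
  · rw [Subgroup.mem_comap, hg]
    exact Subgroup.one_mem _
  · rw [Subgroup.mem_comap]
    refine ⟨CoprodI.of (i := some i) (⟨π (h i), Subgroup.mem_zpowers _⟩ : K (some i)), ?_⟩
    rw [CoprodI.lift_of]
    rfl
  · rw [Subgroup.mem_comap] at hg
    obtain ⟨w, hw⟩ := hg
    obtain ⟨w, rfl⟩ := (CoprodI.Word.equiv (M := fun i => K i)).symm.surjective w
    have hw' : CoprodI.lift f w.prod = π g := hw
    by_cases hemp : w = CoprodI.Word.empty
    · left
      rw [← hw', hemp, CoprodI.Word.prod_empty, map_one]
    · right
      obtain ⟨i, j, w', rfl⟩ := CoprodI.NeWord.of_word w hemp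
      have hi := hhead w'
      have hj := hlast w'
      have h1 := CoprodI.lift_word_ping_pong f X hpp' w' hj
      cases i with
      | none => exact absurd rfl hi
      | some i =>
        refine ⟨i, fun x hx => ?_⟩
        apply h1
        refine ⟨x, hx, ?_⟩
        change (CoprodI.lift f w'.prod) x = _
        have h2 : CoprodI.lift f w'.prod = π g := hw'
        rw [h2]
        rfl

end Pool.Agent.helper77.IG
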