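import Pool.Agent.helper77.IG.Gen
import Pool.Agent.helper77.IG.Engine

/-! # Elements with real eigenvalues are transversal at the real place -/

namespace Pool.Agent.helper77.IG

open Matrix Filter Topology Polynomial

variable {m : ℕ}

/-- rational matrices as real matrices -/
noncomputable def cm : Matrix (Fin (m + 2)) (Fin (m + 2)) ℚ →+* RM m := (algebraMap ℚ ℝ).mapMatrix

lemma cm_apply (M : Matrix (Fin (m + 2)) (Fin (m + 2)) ℚ) (i j : Fin (m + 2)) :
    cm M i j = (M i j : ℝ) := rfl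

lemma det_cm (M : Matrix (Fin (m + 2)) (Fin (m + 2)) ℚ) : (cm M).det = (M.det : ℝ) :=
  (RingHom.map_det (algebraMap ℚ ℝ) M).symm

lemma posKill_sq {B : RM m} (hd : B.det ≠ 0) (h : B.charpoly.Splits) : PosKill (B ^ 2) := by
  refine ⟨B.charpoly.roots.map (fun x => x ^ 2), ?_, ?_⟩
  · intro μ hμ
    obtain ⟨x, hx, rfl⟩ := Multiset.mem_map.1 hμ
    have hx0 : x ≠ 0 := by
      rintro rfl
      have h1 := (mem_roots'.1 hx).2
      rw [IsRoot.def, Matrix.eval_charpoly] at h1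
      simp only [map_zero, zero_sub, Matrix.det_neg] at h1
      rcases mul_eq_zero.1 h1 with h2 | h2
      · exact absurd h2 (pow_ne_zero _ (by norm_num))
      · exact hd h2
    positivity
  · rw [Multiset.map_map]
    set P : ℝ[X] := (B.charpoly.roots.map ((fun μ => X - C μ) ∘ fun x => x ^ 2)).prod with hP
    have h1 : aeval (B ^ 2) P = aeval B (P.comp (X ^ 2)) := by
      rw [aeval_comp]; simp
    have h2 : P.comp (X ^ 2) = (B.charpoly.roots.map (fun x => X - C x)).prod *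
        (B.charpoly.roots.map (fun x => X + C x)).prod := by
      rw [hP, Polynomial.multiset_prod_comp, Multiset.map_map, ← Multiset.prod_map_mul]
      congr 1
      refine Multiset.map_congr rfl fun x _ => ?_
      simp only [Function.comp, sub_comp, X_comp, C_comp]
      rw [C_pow]
      ring
    rw [h1, h2, ← h.eq_prod_roots_of_monic (Matrix.charpoly_monic B), map_mul,
      Matrix.aeval_self_charpoly, zero_mul]

lemma posKill_inv {A A' : RM m} (h1 : A' * A = 1) (hA : PosKill A) : PosKill A' := by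
  obtain ⟨s, hs, hk⟩ := hA
  have h1' : A * A' = 1 := mul_eq_one_comm.1 h1
  have key : ∀ s : Multiset ℝ, (∀ μ ∈ s, 0 < μ) → ∃ (c : ℝ) (k : ℕ),
      aeval A' ((s.map (fun μ => μ⁻¹)).map (fun μ => X - C μ)).prod
        = c • (A' ^ k * aeval A (s.map (fun μ => X - C μ)).prod) := by
    intro s
    induction s using Multiset.induction_on with
    | empty => intro _; exact ⟨1, 0, by simp⟩
    | cons μ s ih =>
      intro hs
      obtain ⟨c, k, h⟩ := ih fun ν hν => hs ν (by simp [hν])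
      have hμ : μ ≠ 0 := (hs μ (by simp)).ne'
      refine ⟨c * (-μ⁻¹), k + 1, ?_⟩
      rw [Multiset.map_cons, Multiset.map_cons, Multiset.prod_cons, map_mul, h,
        Multiset.map_cons, Multiset.prod_cons, map_mul]
      set f := aeval A (s.map (fun μ => X - C μ)).prod with hf
      have h2 : aeval A' (X - C μ⁻¹ : ℝ[X]) = (-μ⁻¹) • (A' * aeval A (X - C μ : ℝ[X])) := by
        rw [aeval_sub, aeval_sub, aeval_X, aeval_X, aeval_C, aeval_C, mul_sub, h1,
          Algebra.algebraMap_eq_smul_one, Algebra.algebraMap_eq_smul_one, mul_smul_comm, mul_one,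
          smul_sub, smul_smul, neg_mul, inv_mul_cancel₀ hμ, neg_smul, neg_smul, one_smul]
        abel
      have hcomm : Commute (aeval A (X - C μ : ℝ[X])) (A' ^ k) := by
        have h3 : Commute A A' := by
          rw [Commute, SemiconjBy, h1, h1']
        have h4 : Commute (aeval A (X - C μ : ℝ[X])) A' := by
          rw [aeval_sub, aeval_X, aeval_C]
          exact h3.sub_left (Algebra.commutes _ _)
        exact h4.pow_right k
      rw [h2, smul_mul_assoc, mul_smul_comm, smul_smul, pow_succ', mul_comm (-μ⁻¹) c]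
      congr 1
      calc A' * aeval A (X - C μ : ℝ[X]) * (A' ^ k * f)
          = A' * (aeval A (X - C μ : ℝ[X]) * A' ^ k) * f := by simp only [mul_assoc]
        _ = A' * (A' ^ k * aeval A (X - C μ : ℝ[X])) * f := by rw [hcomm.eq]
        _ = A' * A' ^ k * (aeval A (X - C μ : ℝ[X]) * f) := by simp only [mul_assoc]
  obtain ⟨c, k, h⟩ := key s hs
  refine ⟨s.map (fun μ => μ⁻¹), ?_, ?_⟩
  · intro ν hν
    obtain ⟨μ, hμ, rfl⟩ := Multiset.mem_map.1 hν
    exact inv_pos.2 (hs μ hμ)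
  · rw [h, hk, mul_zero, smul_zero]

lemma exists_seq (x : ℝ) : ∃ u : ℕ → ℚ, Tendsto (fun k => (u k : ℝ)) atTop (𝓝 x) := by
  choose u hu using fun k : ℕ => exists_rat_near x (ε := 1 / ((k : ℝ) + 1)) (by positivity)
  refine ⟨u, ?_⟩
  rw [tendsto_iff_norm_sub_tendsto_zero]
  refine squeeze_zero (fun k => norm_nonneg _) (fun k => ?_) tendsto_one_div_add_atTop_nhds_zero_nat
  rw [Real.norm_eq_abs, abs_sub_comm]
  exact (hu k).le

/-- rational flags are dense -/
lemma rat_flag (a φ : Fin (m + 2) → ℝ) (h0 : φ ⬝ᵥ a = 0) (ha : a (Fin.last (m + 1)) ≠ 0)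
    (hφ : φ 0 ≠ 0) (ε : ℝ) (hε : 0 < ε) :
    ∃ a' φ' : Fin (m + 2) → ℚ, φ' ⬝ᵥ a' = 0 ∧ a' (Fin.last (m + 1)) ≠ 0 ∧ φ' 0 ≠ 0 ∧
      ∀ i j, |(φ' i : ℝ) * (a' j : ℝ) - φ i * a j| ≤ ε := by
  classical
  choose u hu using fun i => exists_seq (a i)
  choose w hw using fun i => exists_seq (φ i)
  set l := Fin.last (m + 1) with hl
  let ψ : ℕ → Fin (m + 2) → ℚ := fun k i =>
    if i = l then -(∑ i ∈ Finset.univ.erase l, w i k * u i k) / u l k else w i k
  have hsum : ∑ i ∈ Finset.univ.erase l, φ i * a i = - (φ l * a l) := by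
    have h1 : φ ⬝ᵥ a = ∑ i, φ i * a i := rfl
    rw [h1, ← Finset.add_sum_erase _ _ (Finset.mem_univ l)] at h0
    linarith
  have hψ : ∀ i, Tendsto (fun k => (ψ k i : ℝ)) atTop (𝓝 (φ i)) := by
    intro i
    by_cases hi : i = l
    · subst hi
      have h1 : Tendsto (fun k => -(∑ i ∈ Finset.univ.erase l, (w i k : ℝ) * u i k) / u l k) atTop
          (𝓝 (-(∑ i ∈ Finset.univ.erase l, φ i * a i) / a l)) := by
        refine Tendsto.div (Tendsto.neg ?_) (hu l) ha
        exact tendsto_finsetSum _ fun i _ => (hw i).mul (hu i)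
      rw [hsum, neg_neg, mul_div_assoc, div_self ha, mul_one] at h1
      refine h1.congr fun k => ?_
      simp [ψ]
    · refine (hw i).congr fun k => ?_
      simp [ψ, hi]
  have hev1 : ∀ᶠ k in atTop, (u l k : ℝ) ≠ 0 := (hu l).eventually_ne ha
  have hev2 : ∀ᶠ k in atTop, (ψ k 0 : ℝ) ≠ 0 := (hψ 0).eventually_ne hφ
  have hev3 : ∀ᶠ k in atTop, ∀ i j, |(ψ k i : ℝ) * (u j k : ℝ) - φ i * a j| ≤ ε := by
    rw [eventually_all]
    intro i
    rw [eventually_all]
    intro j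
    have h1 := ((hψ i).mul (hu j))
    have h2 := (tendsto_iff_norm_sub_tendsto_zero.1 h1).eventually (gt_mem_nhds hε)
    filter_upwards [h2] with k hk
    exact (by simpa [Real.norm_eq_abs] using hk.le)
  obtain ⟨k, h1, h2, h3⟩ := (hev1.and (hev2.and hev3)).exists
  refine ⟨fun i => u i k, ψ k, ?_, by exact_mod_cast h1, by exact_mod_cast h2, h3⟩
  have h4 : ψ k ⬝ᵥ (fun i => u i k) = ∑ i, ψ k i * u i k := rfl
  have h1' : u l k ≠ 0 := by exact_mod_cast h1
  rw [h4, ← Finset.add_sum_erase _ _ (Finset.mem_univ l)]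
  have h5 : ∑ i ∈ Finset.univ.erase l, ψ k i * u i k
      = ∑ i ∈ Finset.univ.erase l, w i k * u i k := by
    refine Finset.sum_congr rfl fun i hi => ?_
    simp [ψ, Finset.ne_of_mem_erase hi]
  rw [h5]
  have h6 : ψ k l = -(∑ i ∈ Finset.univ.erase l, w i k * u i k) / u l k := by simp [ψ]
  rw [h6, div_mul_cancel₀ _ h1']
  ring

lemma exists_min (f : ℕ → ℝ) (hf : ∀ r, 0 < f r) (R : ℕ) : ∃ ε : ℝ, 0 < ε ∧ ∀ r < R, ε ≤ f r := by
  induction R with
  | zero => exact ⟨1, one_pos, fun r hr => absurd hr (Nat.not_lt_zero _)⟩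
  | succ R ih =>
    obtain ⟨ε, hε, h⟩ := ih
    refine ⟨min ε (f R), lt_min hε (hf R), fun r hr => ?_⟩
    rcases Nat.lt_succ_iff_lt_or_eq.1 hr with h1 | rfl
    · exact (min_le_left _ _).trans (h r h1)
    · exact min_le_right _ _

lemma nsc_of_not_center {g : SLn m} (h : g ∉ Subgroup.center (SLn m)) : Nsc (cm g.1) := by
  intro c hc
  apply h
  rw [Matrix.SpecialLinearGroup.mem_center_iff]
  have h1 : ∀ i j, (g.1 i j : ℝ) = c * (1 : RM m) i j := fun i j => by
    rw [← cm_apply, hc]; rfl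
  have h2 : (g.1 0 0 : ℝ) = c := by rw [h1 0 0, Matrix.one_apply_eq, mul_one]
  have h3 : Matrix.scalar (Fin (m + 2)) (g.1 0 0) = g.1 := by
    ext i j
    rw [Matrix.scalar_apply, Matrix.diagonal_apply]
    have h4 := h1 i j
    rw [Matrix.one_apply, ← h2] at h4
    by_cases hij : i = j
    · subst hij
      simp only [if_true, mul_one] at h4 ⊢
      exact_mod_cast h4.symm
    · simp only [hij, if_false, mul_zero] at h4 ⊢
      exact_mod_cast h4.symm
  refine ⟨g.1 0 0, ?_, h3⟩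
  have h4 := g.2
  rw [← h3, Matrix.scalar_apply, Matrix.det_diagonal] at h4
  simpa using h4

/-- elements with a power whose eigenvalues are all real are transversal at the real place -/
theorem tr_real (g : SLn m) (N : ℕ) (hN : 0 < N)
    (hs : (((g ^ N).1.charpoly).map (algebraMap ℚ ℝ)).Splits) :
    Tr Rat.AbsoluteValue.real g := by
  classical
  set R := N + N with hR
  have hRpos : 0 < R := by omega
  set B : RM m := cm (g ^ N).1 with hB
  set A : RM m := cm (g ^ R).1 with hA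
  set A' : RM m := cm ((g ^ R)⁻¹).1 with hA'
  have hAB : A = B ^ 2 := by
    rw [hA, hB, ← map_pow, sq]
    congr 1
    have : g ^ R = g ^ N * g ^ N := by rw [hR, pow_add]
    rw [this]; rfl
  have hdB : B.det = 1 := by rw [hB, det_cm, (g ^ N).2, Rat.cast_one]
  have hdA : A.det = 1 := by rw [hA, det_cm, (g ^ R).2, Rat.cast_one]
  have hdA' : A'.det = 1 := by rw [hA', det_cm, ((g ^ R)⁻¹).2, Rat.cast_one]
  have hkA : PosKill A := by
    rw [hAB]
    refine posKill_sq (by rw [hdB]; exact one_ne_zero) ?_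
    have : B.charpoly = ((g ^ N).1.charpoly).map (algebraMap ℚ ℝ) :=
      Matrix.charpoly_map _ _
    rw [this]
    exact hs
  have hAA' : A' * A = 1 := by
    rw [hA, hA', ← map_mul]
    have : ((g ^ R)⁻¹).1 * (g ^ R).1 = 1 := by
      have h1 : ((g ^ R)⁻¹ * g ^ R).1 = 1 := by rw [inv_mul_cancel]; rfl
      exact h1
    rw [this, map_one]
  have hkA' : PosKill A' := posKill_inv hAA' hkA
  let G : ℕ → RM m := fun r => cm (g ^ r).1
  have hdG : ∀ r, (G r).det = 1 := fun r => by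
    change (cm (g ^ r).1).det = 1
    rw [det_cm, (g ^ r).2, Rat.cast_one]
  choose 𝒩₁ hc₁ hn₁ hu₁ using fun r : ℕ => uniform_seq (G := G r) hkA hdA (hdG r)
  choose 𝒩₂ hc₂ hn₂ hu₂ using fun r : ℕ => uniform_seq (G := G r) hkA' hdA' (hdG r)
  set 𝒩 : Set (RM m) := (⋃ r, 𝒩₁ r) ∪ (⋃ r, 𝒩₂ r) ∪
    {M | Nsc M ∧ ∃ k : ℤ, M = cm (g ^ k).1} with h𝒩
  have hcount : 𝒩.Countable := by
    refine ((Set.countable_iUnion hc₁).union (Set.countable_iUnion hc₂)).union ?_
    refine (Set.countable_range (fun k : ℤ => cm (g ^ k).1)).mono ?_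
    rintro M ⟨-, k, rfl⟩
    exact ⟨k, rfl⟩
  obtain ⟨a, φ, h0, ha, hφ, hgen⟩ := generic_flag 𝒩 hcount (by
    rintro M ((h | h) | h)
    · obtain ⟨r, hr⟩ := Set.mem_iUnion.1 h
      exact hn₁ r M hr
    · obtain ⟨r, hr⟩ := Set.mem_iUnion.1 h
      exact hn₂ r M hr
    · exact h.1)
  have hpow1 : ∀ (q r : ℕ), A ^ q * G r = cm (g ^ ((R : ℤ) * q + r)).1 := by
    intro q r
    change (cm (g ^ R).1) ^ q * cm (g ^ r).1 = _
    rw [← map_pow, ← map_mul]
    congr 1
    have : (g ^ ((R : ℤ) * q + r)) = (g ^ R) ^ q * g ^ r := by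
      rw [_root_.zpow_add, _root_.zpow_mul, zpow_natCast, zpow_natCast, zpow_natCast]
    rw [this]
    rfl
  have hpow2 : ∀ (q r : ℕ), A' ^ q * G r = cm (g ^ (-((R : ℤ) * q) + r)).1 := by
    intro q r
    change (cm ((g ^ R)⁻¹).1) ^ q * cm (g ^ r).1 = _
    rw [← map_pow, ← map_mul]
    congr 1
    have : (g ^ (-((R : ℤ) * q) + r)) = ((g ^ R)⁻¹) ^ q * g ^ r := by
      rw [_root_.zpow_add, _root_.zpow_neg, _root_.zpow_mul, zpow_natCast, zpow_natCast, zpow_natCast, inv_pow]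
    rw [this]
    rfl
  have hex₁ := fun r => hu₁ r a φ
    (fun M hM => hgen M (Or.inl (Or.inl (Set.mem_iUnion.2 ⟨r, hM⟩))))
    (fun k hk => hgen _ (Or.inr ⟨hk, _, hpow1 k r⟩))
  have hex₂ := fun r => hu₂ r a φ
    (fun M hM => hgen M (Or.inl (Or.inr (Set.mem_iUnion.2 ⟨r, hM⟩))))
    (fun k hk => hgen _ (Or.inr ⟨hk, _, hpow2 k r⟩))
  choose ε₁ hε₁ he₁ using hex₁
  choose ε₂ hε₂ he₂ using hex₂
  obtain ⟨ε, hε, hmin⟩ := exists_min (fun r => min (ε₁ r) (ε₂ r))
    (fun r => lt_min (hε₁ r) (hε₂ r)) R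
  have hall : ∀ k : ℤ, Nsc (cm (g ^ k).1) → ε * rn (cm (g ^ k).1) ≤ |φ ⬝ᵥ (cm (g ^ k).1 *ᵥ a)| := by
    intro k hk
    have hR0 : (R : ℤ) ≠ 0 := by exact_mod_cast hRpos.ne'
    obtain ⟨r, hr⟩ := Int.eq_ofNat_of_zero_le (Int.emod_nonneg k hR0)
    have hrR : r < R := by
      have := Int.emod_lt_of_pos k (by exact_mod_cast hRpos : (0 : ℤ) < R)
      omega
    have hk' : k = (R : ℤ) * (k / R) + r := by
      rw [← hr]; exact (Int.mul_ediv_add_emod k R).symm
    rcases Int.le_total 0 (k / R) with hq | hq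
    · obtain ⟨q, hq⟩ := Int.eq_ofNat_of_zero_le hq
      rw [hq] at hk'
      have h1 : cm (g ^ k).1 = A ^ q * G r := by rw [hpow1, ← hk']
      rw [h1] at hk ⊢
      exact (mul_le_mul_of_nonneg_right ((hmin r hrR).trans (min_le_left _ _))
        (rn_nonneg _)).trans (he₁ r q hk)
    · obtain ⟨q, hq⟩ := Int.eq_ofNat_of_zero_le (Int.neg_nonneg.2 hq)
      have hq' : k / R = - (q : ℤ) := by omega
      rw [hq', mul_neg] at hk'
      have h1 : cm (g ^ k).1 = A' ^ q * G r := by rw [hpow2, ← hk']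
      rw [h1] at hk ⊢
      exact (mul_le_mul_of_nonneg_right ((hmin r hrR).trans (min_le_right _ _))
        (rn_nonneg _)).trans (he₂ r q hk)
  obtain ⟨a', φ', h0', ha', hφ', happ⟩ := rat_flag a φ h0 ha hφ (ε / 2) (by positivity)
  refine ⟨a', φ', h0', ha', hφ', 2 / ε, fun k hk => ?_⟩
  set M := (g ^ k).1 with hM
  have hopn : opn Rat.AbsoluteValue.real M = rn (cm M) := by
    unfold opn rn
    refine Finset.sum_congr rfl fun i _ => Finset.sum_congr rfl fun j _ => ?_
    rw [cm_apply, Rat.AbsoluteValue.real_eq_abs, Rat.cast_abs]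
  have h1 := hall k (nsc_of_not_center hk)
  rw [← hM] at h1
  have hval : Rat.AbsoluteValue.real (φ' ⬝ᵥ (M *ᵥ a'))
      = |∑ i, ∑ j, cm M i j * ((φ' i : ℝ) * (a' j : ℝ))| := by
    rw [Rat.AbsoluteValue.real_eq_abs, Rat.cast_abs]
    congr 1
    simp only [dotProduct, Matrix.mulVec]
    push_cast
    refine Finset.sum_congr rfl fun i _ => ?_
    rw [Finset.mul_sum]
    exact Finset.sum_congr rfl fun j _ => by rw [cm_apply]; ring
  have hval2 : φ ⬝ᵥ (cm M *ᵥ a) = ∑ i, ∑ j, cm M i j * (φ i * a j) := by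
    simp only [dotProduct, Matrix.mulVec]
    refine Finset.sum_congr rfl fun i _ => ?_
    rw [Finset.mul_sum]
    exact Finset.sum_congr rfl fun j _ => by ring
  have hdiff : |(∑ i, ∑ j, cm M i j * ((φ' i : ℝ) * (a' j : ℝ)))
      - ∑ i, ∑ j, cm M i j * (φ i * a j)| ≤ rn (cm M) * (ε / 2) := by
    rw [← Finset.sum_sub_distrib]
    refine (Finset.abs_sum_le_sum_abs _ _).trans ?_
    unfold rn
    rw [Finset.sum_mul]
    refine Finset.sum_le_sum fun i _ => ?_
    rw [← Finset.sum_sub_distrib]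
    refine (Finset.abs_sum_le_sum_abs _ _).trans ?_
    rw [Finset.sum_mul]
    refine Finset.sum_le_sum fun j _ => ?_
    rw [← mul_sub, abs_mul]
    exact mul_le_mul_of_nonneg_left (happ i j) (abs_nonneg _)
  rw [hval2] at h1
  rw [hopn, hval]
  have h2 : ε / 2 * rn (cm M) ≤ |∑ i, ∑ j, cm M i j * ((φ' i : ℝ) * (a' j : ℝ))| := by
    have h3 := abs_sub_abs_le_abs_sub (∑ i, ∑ j, cm M i j * (φ i * a j))
      (∑ i, ∑ j, cm M i j * ((φ' i : ℝ) * (a' j : ℝ)))
    rw [abs_sub_comm] at h3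
    linarith
  rw [div_mul_eq_mul_div, le_div_iff₀ hε]
  linarith

end Pool.Agent.helper77.IG
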