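import Pool.Agent.helper77.IG.Ext

/-! # Elements with all eigenvalues in `ℚ_p`, not all units, are extremal at `p` -/

namespace Pool.Agent.helper77.IG

open Matrix Filter Topology Polynomial

variable {m : ℕ} {p : ℕ} [hp : Fact p.Prime]

/-- matrices over `ℚ_p` -/
abbrev PM (p m : ℕ) [Fact p.Prime] := Matrix (Fin (m + 2)) (Fin (m + 2)) ℚ_[p]

/-- linear recurrences with bounded roots -/
lemma pbound_rec {V : Type*} [AddCommGroup V] [Module ℚ_[p] V] (T : Module.End ℚ_[p] V)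
    (R : ℝ) (hR : 0 < R) (s : Multiset ℚ_[p]) (hs : ∀ μ ∈ s, ‖μ‖ ≤ R) :
    ∀ (w : V), (aeval T (s.map (fun μ => X - C μ)).prod) w = 0 →
      ∀ ℓ : V →ₗ[ℚ_[p]] ℚ_[p], ∃ K : ℝ, 0 ≤ K ∧ ∀ k : ℕ, ‖ℓ ((T ^ k) w)‖ ≤ K * R ^ k := by
  induction s using Multiset.induction_on with
  | empty =>
    intro w hw ℓ
    have : w = 0 := by simpa using hw
    exact ⟨0, le_rfl, fun k => by rw [this]; simp⟩
  | cons μ s ih =>
    intro w hw ℓ
    rw [Multiset.map_cons, Multiset.prod_cons, mul_comm, map_mul, Module.End.mul_apply] at hw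
    obtain ⟨K, hK, h⟩ := ih (fun ν hν => hs ν (by simp [hν])) _ hw ℓ
    refine ⟨max ‖ℓ w‖ (K / R), le_max_of_le_left (norm_nonneg _), fun k => ?_⟩
    induction k with
    | zero => simp
    | succ k ihk =>
      have h1 := h k
      have h2 : ℓ ((T ^ (k + 1)) w)
          = μ * ℓ ((T ^ k) w) + ℓ ((T ^ k) ((aeval T (X - C μ)) w)) := by
        rw [aeval_sub, aeval_X, aeval_C, LinearMap.sub_apply, map_sub, map_sub, pow_succ,
          Module.End.mul_apply]
        simp [Module.algebraMap_end_apply]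
      rw [h2]
      refine (Padic.nonarchimedean _ _).trans (max_le ?_ ?_)
      · rw [norm_mul, pow_succ]
        calc ‖μ‖ * ‖ℓ ((T ^ k) w)‖ ≤ R * (max ‖ℓ w‖ (K / R) * R ^ k) :=
              mul_le_mul (hs μ (by simp)) ihk (norm_nonneg _) hR.le
          _ = _ := by ring
      · refine h1.trans ?_
        calc K * R ^ k = K / R * R ^ (k + 1) := by rw [pow_succ]; field_simp
          _ ≤ _ := mul_le_mul_of_nonneg_right (le_max_right _ _) (by positivity)

/-- `ℓ¹` norm -/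
noncomputable def pn (M : PM p m) : ℝ := ∑ i, ∑ j, ‖M i j‖

lemma pn_nonneg (M : PM p m) : 0 ≤ pn M :=
  Finset.sum_nonneg fun _ _ => Finset.sum_nonneg fun _ _ => norm_nonneg _

/-- powers of a matrix killed by a polynomial with bounded roots -/
lemma pbound_pow (A : PM p m) (R : ℝ) (hR : 0 < R) (s : Multiset ℚ_[p])
    (hs : ∀ μ ∈ s, ‖μ‖ ≤ R) (hA : aeval A (s.map (fun μ => X - C μ)).prod = 0) :
    ∃ K : ℝ, 0 ≤ K ∧ ∀ k : ℕ, pn (A ^ k) ≤ K * R ^ k := by
  classical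
  set T : Module.End ℚ_[p] (PM p m) := Algebra.lmul ℚ_[p] (PM p m) A with hT
  have h1 : (aeval T (s.map (fun μ => X - C μ)).prod) 1 = 0 := by
    rw [hT, aeval_algHom_apply, hA, map_zero, LinearMap.zero_apply]
  have h2 := fun i j => pbound_rec T R hR s hs 1 h1 (Matrix.entryLinearMap ℚ_[p] ℚ_[p] i j)
  choose K hK h3 using h2
  refine ⟨∑ i, ∑ j, K i j, Finset.sum_nonneg fun i _ => Finset.sum_nonneg fun j _ => hK i j,
    fun k => ?_⟩
  unfold pn
  rw [Finset.sum_mul]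
  refine Finset.sum_le_sum fun i _ => ?_
  rw [Finset.sum_mul]
  refine Finset.sum_le_sum fun j _ => ?_
  have h4 := h3 i j k
  have h5 : (T ^ k) 1 = A ^ k := by
    rw [hT, ← map_pow]
    change A ^ k * 1 = A ^ k
    rw [mul_one]
  rw [h5] at h4
  exact h4

/-- killing polynomial of the inverse -/
lemma kill_inv {K : Type*} [Field K] {n : Type*} [Fintype n] [DecidableEq n] {A A' : Matrix n n K}
    (h1 : A' * A = 1) (s : Multiset K) (hs : ∀ μ ∈ s, μ ≠ 0)
    (hk : aeval A (s.map (fun μ => X - C μ)).prod = 0) :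
    aeval A' ((s.map (fun μ => μ⁻¹)).map (fun μ => X - C μ)).prod = 0 := by
  have h1' : A * A' = 1 := mul_eq_one_comm.1 h1
  have key : ∀ s : Multiset K, (∀ μ ∈ s, μ ≠ 0) → ∃ (c : K) (k : ℕ),
      aeval A' ((s.map (fun μ => μ⁻¹)).map (fun μ => X - C μ)).prod
        = c • (A' ^ k * aeval A (s.map (fun μ => X - C μ)).prod) := by
    intro s
    induction s using Multiset.induction_on with
    | empty => intro _; exact ⟨1, 0, by simp⟩
    | cons μ s ih =>
      intro hs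
      obtain ⟨c, k, h⟩ := ih fun ν hν => hs ν (by simp [hν])
      have hμ : μ ≠ 0 := hs μ (by simp)
      refine ⟨c * (-μ⁻¹), k + 1, ?_⟩
      rw [Multiset.map_cons, Multiset.map_cons, Multiset.prod_cons, map_mul, h,
        Multiset.map_cons, Multiset.prod_cons, map_mul]
      set f := aeval A (s.map (fun μ => X - C μ)).prod with hf
      have h2 : aeval A' (X - C μ⁻¹ : K[X]) = (-μ⁻¹) • (A' * aeval A (X - C μ : K[X])) := by
        rw [aeval_sub, aeval_sub, aeval_X, aeval_X, aeval_C, aeval_C, mul_sub, h1,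
          Algebra.algebraMap_eq_smul_one, Algebra.algebraMap_eq_smul_one, mul_smul_comm, mul_one,
          smul_sub, smul_smul, neg_mul, inv_mul_cancel₀ hμ, neg_smul, neg_smul, one_smul]
        abel
      have hcomm : Commute (aeval A (X - C μ : K[X])) (A' ^ k) := by
        have h3 : Commute A A' := by
          rw [Commute, SemiconjBy, h1, h1']
        have h4 : Commute (aeval A (X - C μ : K[X])) A' := by
          rw [aeval_sub, aeval_X, aeval_C]
          exact h3.sub_left (Algebra.commutes _ _)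
        exact h4.pow_right k
      rw [h2, smul_mul_assoc, mul_smul_comm, smul_smul, pow_succ', mul_comm (-μ⁻¹) c]
      congr 1
      calc A' * aeval A (X - C μ : K[X]) * (A' ^ k * f)
          = A' * (aeval A (X - C μ : K[X]) * A' ^ k) * f := by simp only [mul_assoc]
        _ = A' * (A' ^ k * aeval A (X - C μ : K[X])) * f := by rw [hcomm.eq]
        _ = A' * A' ^ k * (aeval A (X - C μ : K[X]) * f) := by simp only [mul_assoc]
  obtain ⟨c, k, h⟩ := key s hs
  rw [h, hk, mul_zero, smul_zero]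

/-- norms of the roots -/
lemma exists_big (s : Multiset ℚ_[p]) (hs : s.prod = 1) (h : ∃ μ ∈ s, ‖μ‖ ≠ 1) :
    (∃ μ ∈ s, 1 < ‖μ‖) ∧ (∃ μ ∈ s, ‖μ‖ < 1) := by
  have hne : ∀ μ ∈ s, μ ≠ 0 := by
    rintro μ hμ rfl
    rw [Multiset.prod_eq_zero hμ] at hs
    exact zero_ne_one hs
  have key : ∀ s : Multiset ℚ_[p], (∀ μ ∈ s, ‖μ‖ ≤ 1) → (∀ μ ∈ s, μ ≠ 0) →
      (‖s.prod‖ ≤ 1 ∧ ((∃ μ ∈ s, ‖μ‖ < 1) → ‖s.prod‖ < 1)) := by
    intro s
    induction s using Multiset.induction_on with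
    | empty => intro _ _; simp
    | cons μ s ih =>
      intro h1 h2
      obtain ⟨h3, h4⟩ := ih (fun ν hν => h1 ν (by simp [hν])) (fun ν hν => h2 ν (by simp [hν]))
      have hμ := h1 μ (by simp)
      rw [Multiset.prod_cons, norm_mul]
      refine ⟨mul_le_one₀ hμ (norm_nonneg _) h3, ?_⟩
      rintro ⟨ν, hν, hν1⟩
      rcases Multiset.mem_cons.1 hν with rfl | hν
      · exact mul_lt_one_of_nonneg_of_lt_one_left (norm_nonneg _) hν1 h3
      · exact mul_lt_one_of_nonneg_of_lt_one_right hμ (norm_nonneg _) (h4 ⟨ν, hν, hν1⟩)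
  have key' : ∀ s : Multiset ℚ_[p], (∀ μ ∈ s, 1 ≤ ‖μ‖) →
      (1 ≤ ‖s.prod‖ ∧ ((∃ μ ∈ s, 1 < ‖μ‖) → 1 < ‖s.prod‖)) := by
    intro s
    induction s using Multiset.induction_on with
    | empty => intro _; simp
    | cons μ s ih =>
      intro h1
      obtain ⟨h3, h4⟩ := ih (fun ν hν => h1 ν (by simp [hν]))
      have hμ := h1 μ (by simp)
      rw [Multiset.prod_cons, norm_mul]
      refine ⟨one_le_mul_of_one_le_of_one_le hμ h3, ?_⟩
      rintro ⟨ν, hν, hν1⟩
      rcases Multiset.mem_cons.1 hν with rfl | hν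
      · nlinarith
      · have := h4 ⟨ν, hν, hν1⟩
        nlinarith
  obtain ⟨μ, hμ, hμ1⟩ := h
  constructor
  · by_contra hc
    push Not at hc
    have := (key s hc hne).2 ⟨μ, hμ, lt_of_le_of_ne (hc μ hμ) hμ1⟩
    rw [hs, norm_one] at this
    exact lt_irrefl _ this
  · by_contra hc
    push Not at hc
    have := (key' s hc).2 ⟨μ, hμ, lt_of_le_of_ne (hc μ hμ) (Ne.symm hμ1)⟩
    rw [hs, norm_one] at this
    exact lt_irrefl _ this

lemma exists_max_norm (s : Multiset ℚ_[p]) (h : s ≠ 0) (f : ℚ_[p] → ℝ) :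
    ∃ μ ∈ s, ∀ ν ∈ s, f ν ≤ f μ := by
  classical
  obtain ⟨a, ha⟩ := Multiset.exists_mem_of_ne_zero h
  obtain ⟨μ, hμ, hmax⟩ := Finset.exists_max_image s.toFinset f ⟨a, Multiset.mem_toFinset.2 ha⟩
  exact ⟨μ, Multiset.mem_toFinset.1 hμ, fun ν hν => hmax ν (Multiset.mem_toFinset.2 hν)⟩

/-- elements with all eigenvalues in `ℚ_p`, not all units -/
theorem extremal_of_split (g : SLn m) (hs : ((g.1.charpoly).map (Rat.castHom ℚ_[p])).Splits)
    (hu : ∃ μ ∈ ((g.1.charpoly).map (Rat.castHom ℚ_[p])).roots, ‖μ‖ ≠ 1) :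
    Extremal ℚ_[p] g := by
  classical
  set B : PM p m := ck ℚ_[p] g.1 with hB
  set B' : PM p m := ck ℚ_[p] (g⁻¹).1 with hB'
  have hχ : B.charpoly = (g.1.charpoly).map (Rat.castHom ℚ_[p]) := Matrix.charpoly_map _ _
  rw [← hχ] at hs hu
  set s := B.charpoly.roots with hsr
  have hdB : B.det = 1 := by
    have h1 : B.det = (Rat.castHom ℚ_[p]) g.1.det := (RingHom.map_det (Rat.castHom ℚ_[p]) g.1).symm
    rw [h1, g.2, map_one]
  have hprod : s.prod = 1 := by
    rw [hsr, ← Matrix.det_eq_prod_roots_charpoly_of_splits hs, hdB]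
  have hBB' : B' * B = 1 := by
    rw [hB, hB', ← map_mul]
    have : (g⁻¹).1 * g.1 = 1 := by
      have h1 : (g⁻¹ * g).1 = 1 := by rw [inv_mul_cancel]; rfl
      exact h1
    rw [this, map_one]
  have hkB : aeval B (s.map (fun μ => X - C μ)).prod = 0 := by
    rw [hsr, ← hs.eq_prod_roots_of_monic (Matrix.charpoly_monic B), Matrix.aeval_self_charpoly]
  have hs0 : s ≠ 0 := by
    rintro h
    obtain ⟨μ, hμ, -⟩ := hu
    rw [h] at hμ
    exact absurd hμ (Multiset.notMem_zero _)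
  have hne : ∀ μ ∈ s, μ ≠ 0 := by
    rintro μ hμ rfl
    rw [Multiset.prod_eq_zero hμ] at hprod
    exact zero_ne_one hprod
  obtain ⟨⟨μ₁, hμ₁, hb⟩, ⟨μ₂, hμ₂, hsm⟩⟩ := exists_big s hprod hu
  obtain ⟨x, hx, hxmax⟩ := exists_max_norm s hs0 (fun μ => ‖μ‖)
  obtain ⟨y, hy, hymin⟩ := exists_max_norm s hs0 (fun μ => -‖μ‖)
  have hx1 : 1 < ‖x‖ := lt_of_lt_of_le hb (hxmax μ₁ hμ₁)
  have hy1 : ‖y‖ < 1 := by
    have : -‖μ₂‖ ≤ -‖y‖ := hymin μ₂ hμ₂
    linarith
  have hy0 : 0 < ‖y‖ := norm_pos_iff.2 (hne y hy)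
  have hx0 : 0 < ‖x‖ := by linarith
  obtain ⟨K₁, hK₁, hb₁⟩ := pbound_pow B ‖x‖ hx0 s (fun μ hμ => hxmax μ hμ) hkB
  obtain ⟨K₂, hK₂, hb₂⟩ := pbound_pow B' ‖y‖⁻¹ (inv_pos.2 hy0) (s.map (fun μ => μ⁻¹)) (by
    intro ν hν
    obtain ⟨μ, hμ, rfl⟩ := Multiset.mem_map.1 hν
    rw [norm_inv]
    refine inv_anti₀ hy0 ?_
    have : -‖μ‖ ≤ -‖y‖ := hymin μ hμ
    linarith) (kill_inv hBB' s hne hkB)
  have hent : ∀ (M : PM p m) (i j : Fin (m + 2)), ‖M i j‖ ≤ pn M := by
    intro M i j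
    unfold pn
    refine le_trans ?_ (Finset.single_le_sum (f := fun i => ∑ j, ‖M i j‖)
      (fun _ _ => Finset.sum_nonneg fun _ _ => norm_nonneg _) (Finset.mem_univ i))
    exact Finset.single_le_sum (f := fun j => ‖M i j‖) (fun _ _ => norm_nonneg _)
      (Finset.mem_univ j)
  refine ⟨x, y, by linarith, ?_, ?_, K₁ + K₂, fun k => ⟨fun i j => ?_, fun i j => ?_⟩⟩
  · rw [← hχ]; exact (mem_roots'.1 hx).2
  · rw [← hχ]; exact (mem_roots'.1 hy).2
  · have h1 : ck ℚ_[p] (g ^ k).1 = B ^ k := by rw [hB, ← map_pow]; rfl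
    have h2 := (hent (B ^ k) i j).trans (hb₁ k)
    rw [← h1, ck_apply] at h2
    refine h2.trans (mul_le_mul_of_nonneg_right (by linarith) (by positivity))
  · have h1 : ck ℚ_[p] ((g⁻¹) ^ k).1 = B' ^ k := by rw [hB', ← map_pow]; rfl
    have h2 := (hent (B' ^ k) i j).trans (hb₂ k)
    rw [← h1, ck_apply] at h2
    refine h2.trans (mul_le_mul_of_nonneg_right (by linarith) (by positivity))

end Pool.Agent.helper77.IG
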