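import Pool.Agent.helper77.IG.RealMain

/-! # Elements of `SL₂(ℚ)` with trace of absolute value `> 1`, and elements of finite order -/

namespace Pool.Agent.helper77.IG

open Matrix

variable {m : ℕ} (v : AbsoluteValue ℚ ℝ)

/-- Chebyshev-type sequence -/
def sq (t : ℚ) : ℕ → ℚ
  | 0 => 0
  | 1 => 1
  | (k + 2) => t * sq t (k + 1) - sq t k

lemma sq_succ (t : ℚ) (k : ℕ) : sq t (k + 2) = t * sq t (k + 1) - sq t k := rfl

lemma ch_two (A : Matrix (Fin 2) (Fin 2) ℚ) (h : A.det = 1) : A * A = A.trace • A - 1 := by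
  rw [Matrix.det_fin_two] at h
  ext i j
  rw [Matrix.mul_apply, Fin.sum_univ_two, Matrix.sub_apply, Matrix.smul_apply, Matrix.trace_fin_two,
    smul_eq_mul]
  fin_cases i <;> fin_cases j <;> simp <;> linarith

lemma pow_two (A : Matrix (Fin 2) (Fin 2) ℚ) (h : A.det = 1) (k : ℕ) :
    A ^ (k + 1) = sq A.trace (k + 1) • A - sq A.trace k • (1 : Matrix (Fin 2) (Fin 2) ℚ) := by
  induction k with
  | zero => simp [sq]
  | succ k ih =>
    rw [pow_succ, ih, sub_mul, smul_mul_assoc, ch_two A h, smul_mul_assoc, one_mul, sq_succ]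
    ext i j
    simp only [Matrix.sub_apply, Matrix.smul_apply, smul_eq_mul]
    ring

lemma opn_sub_smul (A B : Matrix (Fin (m + 2)) (Fin (m + 2)) ℚ) (x y : ℚ) :
    opn v (x • A - y • B) ≤ v x * opn v A + v y * opn v B := by
  unfold opn
  rw [Finset.mul_sum, Finset.mul_sum, ← Finset.sum_add_distrib]
  refine Finset.sum_le_sum fun i _ => ?_
  rw [Finset.mul_sum, Finset.mul_sum, ← Finset.sum_add_distrib]
  refine Finset.sum_le_sum fun j _ => ?_
  rw [Matrix.sub_apply, Matrix.smul_apply, Matrix.smul_apply, smul_eq_mul, smul_eq_mul]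
  refine (abv_sub_le v _ _).trans ?_
  rw [map_mul, map_mul]

/-- `SL₂`: traces satisfying the expansion condition -/
theorem tr_two (g : SLn 0) (hexp : ∀ x y : ℚ, v x ≤ v y → v y ≤ v (g.1.trace * y - x))
    (hns : ∀ c : ℚ, g.1 ≠ c • 1) : Tr v g := by
  -- monotonicity
  set t := g.1.trace with ht
  have hmono : ∀ k, v (sq t k) ≤ v (sq t (k + 1)) := by
    intro k
    induction k with
    | zero => simp [sq]
    | succ k ih => rw [sq_succ]; exact hexp _ _ ih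
  have h1le : ∀ k, 1 ≤ v (sq t (k + 1)) := by
    intro k
    induction k with
    | zero => simp [sq]
    | succ k ih => exact ih.trans (hmono (k + 1))
  -- the vector
  have hx : ∃ x : ℚ, (g.1 0 0 * x + g.1 0 1) - x * (g.1 1 0 * x + g.1 1 1) ≠ 0 := by
    by_contra h
    push Not at h
    have e0 := h 0
    have e1 := h 1
    have e2 := h (-1)
    apply hns (g.1 0 0)
    have h01 : g.1 0 1 = 0 := by linarith
    have h10 : g.1 1 0 = 0 := by linarith
    have h11 : g.1 1 1 = g.1 0 0 := by linarith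
    ext i j
    fin_cases i <;> fin_cases j <;> simp [h01, h10, h11]
  obtain ⟨x, hx⟩ := hx
  set D := (g.1 0 0 * x + g.1 0 1) - x * (g.1 1 0 * x + g.1 1 1) with hD
  have hDp : 0 < v D := v.pos hx
  let a : Fin (0 + 2) → ℚ := ![x, 1]
  let φ : Fin (0 + 2) → ℚ := ![1, -x]
  have h0 : φ ⬝ᵥ a = 0 := by simp [a, φ, dotProduct, Fin.sum_univ_two]
  have hφg : φ ⬝ᵥ (g.1 *ᵥ a) = D := by
    simp [a, φ, dotProduct, Matrix.mulVec, Fin.sum_univ_two, hD]
    ring
  have hdetg : g.1.det = 1 := g.2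
  have hdi : (g⁻¹).1.det = 1 := (g⁻¹).2
  have hinv : (g⁻¹).1 = t • (1 : Matrix (Fin (0 + 2)) (Fin (0 + 2)) ℚ) - g.1 := by
    have h2 := ch_two g.1 hdetg
    have h3 : g.1 * (g⁻¹).1 = 1 := by
      have : (g * g⁻¹).1 = 1 := by rw [mul_inv_cancel]; rfl
      exact this
    have h4 : g.1 * (t • (1 : Matrix (Fin (0 + 2)) (Fin (0 + 2)) ℚ) - g.1) = 1 := by
      rw [mul_sub, mul_smul_comm, mul_one, h2, ← ht]
      abel
    have h5 : (g⁻¹).1 * g.1 = 1 := by
      have : (g⁻¹ * g).1 = 1 := by rw [inv_mul_cancel]; rfl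
      exact this
    calc (g⁻¹).1 = (g⁻¹).1 * (g.1 * (t • (1 : Matrix (Fin (0 + 2)) (Fin (0 + 2)) ℚ) - g.1)) := by
          rw [h4, mul_one]
      _ = _ := by rw [← mul_assoc, h5, one_mul]
  have htri : (g⁻¹).1.trace = t := by
    rw [hinv, Matrix.trace_sub, Matrix.trace_smul, Matrix.trace_one, ← ht]
    simp
    ring
  have hφgi : φ ⬝ᵥ ((g⁻¹).1 *ᵥ a) = -D := by
    rw [hinv, Matrix.sub_mulVec, Matrix.smul_mulVec, Matrix.one_mulVec, dotProduct_sub,
      dotProduct_smul, h0, hφg, smul_zero, zero_sub]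
  set K := opn v g.1 + opn v (g⁻¹).1 + opn v (1 : Matrix (Fin (0 + 2)) (Fin (0 + 2)) ℚ) with hK
  have hK1 := opn_nonneg v g.1
  have hK2 := opn_nonneg v (g⁻¹).1
  have hK3 := opn_nonneg v (1 : Matrix (Fin (0 + 2)) (Fin (0 + 2)) ℚ)
  -- general step
  have key : ∀ (A : Matrix (Fin (0 + 2)) (Fin (0 + 2)) ℚ), A.det = 1 → A.trace = t →
      v (φ ⬝ᵥ (A *ᵥ a)) = v D → opn v A + opn v (1 : Matrix (Fin (0 + 2)) (Fin (0 + 2)) ℚ) ≤ K →
      ∀ k : ℕ, opn v (A ^ (k + 1)) ≤ K / v D * v (φ ⬝ᵥ ((A ^ (k + 1)) *ᵥ a)) := by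
    intro A hdA htA hvA hKA k
    have h2 := pow_two A hdA k
    rw [htA] at h2
    have h3 : opn v (A ^ (k + 1)) ≤ v (sq t (k + 1)) * K := by
      rw [h2]
      refine (opn_sub_smul (m := 0) v _ _ _ _).trans ?_
      have h4 : v (sq t k) * opn v (1 : Matrix (Fin (0 + 2)) (Fin (0 + 2)) ℚ)
          ≤ v (sq t (k + 1)) * opn v (1 : Matrix (Fin (0 + 2)) (Fin (0 + 2)) ℚ) :=
        mul_le_mul_of_nonneg_right (hmono k) hK3
      have h5 : v (sq t (k + 1)) * (opn v A + opn v (1 : Matrix (Fin (0 + 2)) (Fin (0 + 2)) ℚ))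
          ≤ v (sq t (k + 1)) * K := mul_le_mul_of_nonneg_left hKA (v.nonneg _)
      rw [mul_add] at h5
      exact le_trans (by gcongr) h5
    have h6 : v (φ ⬝ᵥ ((A ^ (k + 1)) *ᵥ a)) = v (sq t (k + 1)) * v D := by
      rw [h2, Matrix.sub_mulVec, Matrix.smul_mulVec, Matrix.smul_mulVec, Matrix.one_mulVec,
        dotProduct_sub, dotProduct_smul, dotProduct_smul, h0, smul_zero, sub_zero, smul_eq_mul,
        map_mul, hvA]
    rw [h6]
    refine h3.trans (le_of_eq ?_)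
    field_simp
  refine ⟨a, φ, h0, ?_, ?_, K / v D, fun k hk => ?_⟩
  · change (1 : ℚ) ≠ 0
    exact one_ne_zero
  · change (1 : ℚ) ≠ 0
    exact one_ne_zero
  rcases Int.lt_trichotomy k 0 with hk0 | hk0 | hk0
  · obtain ⟨j, hj⟩ : ∃ j : ℕ, k = -((j + 1 : ℕ) : ℤ) := ⟨(-k - 1).toNat, by omega⟩
    have h2 : (g ^ k) = (g⁻¹) ^ (j + 1) := by
      rw [hj, _root_.zpow_neg, zpow_natCast, inv_pow]
    have h3 : (g ^ k).1 = (g⁻¹).1 ^ (j + 1) := by rw [h2]; rfl
    rw [h3]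
    refine key _ hdi htri ?_ ?_ j
    · rw [hφgi, map_neg_eq_map]
    · rw [hK]; linarith
  · exfalso
    rw [hk0, zpow_zero] at hk
    exact hk (Subgroup.one_mem _)
  · obtain ⟨j, hj⟩ : ∃ j : ℕ, k = ((j + 1 : ℕ) : ℤ) := ⟨(k - 1).toNat, by omega⟩
    have h3 : (g ^ k).1 = g.1 ^ (j + 1) := by rw [hj, zpow_natCast]; rfl
    rw [h3]
    refine key _ hdetg rfl ?_ ?_ j
    · rw [hφg]
    · rw [hK]; linarith

/-- elements of finite order are transversal at every place -/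
theorem tr_finite (g : SLn m) (hg : IsOfFinOrder g) : Tr v g := by
  classical
  obtain ⟨N, hN, hgN⟩ := isOfFinOrder_iff_pow_eq_one.1 hg
  have hs : (((g ^ N).1.charpoly).map (algebraMap ℚ ℝ)).Splits := by
    have : (g ^ N).1 = 1 := by rw [hgN]; rfl
    rw [this, Matrix.charpoly_one, Polynomial.map_pow, Polynomial.map_sub, Polynomial.map_X,
      Polynomial.map_one]
    have h2 : (Polynomial.X - 1 : Polynomial ℝ) = Polynomial.X - Polynomial.C 1 := by simp
    rw [h2]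
    exact (Polynomial.Splits.X_sub_C 1).pow _
  obtain ⟨a, φ, h0, ha, hφ, C, hC⟩ := tr_real g N hN hs
  have hne : ∀ k : ℤ, g ^ k ∉ Subgroup.center (SLn m) → φ ⬝ᵥ ((g ^ k).1 *ᵥ a) ≠ 0 := by
    intro k hk h
    have h1 := hC k hk
    rw [h, map_zero, mul_zero] at h1
    exact absurd (opn_pos Rat.AbsoluteValue.real (ne_zero_mat (g ^ k))) (not_lt.2 h1)
  let F : ℕ → ℝ := fun r => opn v (g ^ r).1 / v (φ ⬝ᵥ ((g ^ r).1 *ᵥ a))
  have hF : ∀ r, 0 ≤ F r := fun r => div_nonneg (opn_nonneg v _) (v.nonneg _)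
  refine ⟨a, φ, h0, ha, hφ, ∑ r ∈ Finset.range N, F r, fun k hk => ?_⟩
  have hN0 : (N : ℤ) ≠ 0 := by exact_mod_cast hN.ne'
  obtain ⟨r, hr⟩ := Int.eq_ofNat_of_zero_le (Int.emod_nonneg k hN0)
  have hrN : r < N := by
    have := Int.emod_lt_of_pos k (by exact_mod_cast hN : (0 : ℤ) < N)
    omega
  have hk' : g ^ k = g ^ r := by
    have h1 : k = (N : ℤ) * (k / N) + r := by rw [← hr]; exact (Int.mul_ediv_add_emod k N).symm
    rw [h1, _root_.zpow_add, _root_.zpow_mul, zpow_natCast, hgN, _root_.one_zpow, one_mul, zpow_natCast]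
  rw [hk']
  have h2 := hne k hk
  rw [hk'] at h2
  have h3 : 0 < v (φ ⬝ᵥ ((g ^ r).1 *ᵥ a)) := v.pos h2
  have h4 : F r ≤ ∑ r ∈ Finset.range N, F r :=
    Finset.single_le_sum (fun r _ => hF r) (Finset.mem_range.2 hrN)
  calc opn v (g ^ r).1 = F r * v (φ ⬝ᵥ ((g ^ r).1 *ᵥ a)) := by
        simp only [F]; field_simp
    _ ≤ _ := mul_le_mul_of_nonneg_right h4 h3.le

/-- the expansion condition for a `p`-adic absolute value -/
lemma exp_padic (p : ℕ) [Fact p.Prime] (t : ℚ) (ht : 1 < padicNorm p t) (x y : ℚ)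
    (h : Rat.AbsoluteValue.padic p x ≤ Rat.AbsoluteValue.padic p y) :
    Rat.AbsoluteValue.padic p y ≤ Rat.AbsoluteValue.padic p (t * y - x) := by
  simp only [Rat.AbsoluteValue.padic_eq_padicNorm] at h ⊢
  norm_cast at h ⊢
  by_contra hc
  push Not at hc
  have h1 : padicNorm p (t * y) ≤ max (padicNorm p (t * y - x)) (padicNorm p x) := by
    have := padicNorm.nonarchimedean (p := p) (q := t * y - x) (r := x)
    rwa [sub_add_cancel] at this
  have h2 : padicNorm p (t * y) ≤ padicNorm p y := h1.trans (max_le hc.le h)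
  rw [padicNorm.mul] at h2
  have h3 : 0 ≤ padicNorm p y := padicNorm.nonneg y
  have h4 : 0 ≤ padicNorm p (t * y - x) := padicNorm.nonneg _
  nlinarith

end Pool.Agent.helper77.IG
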